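import Pool.Agent.TH671.DU.Red
import Mathlib.RingTheory.TensorProduct.Pi

/-!
# Disjoint unions of powers of one scheme
-/

set_option autoImplicit false
set_option linter.unusedSectionVars false

namespace Pool.Agent.TH671.DU

open scoped TensorProduct PowerSeries Topology
open Pool.Agent.H826R3.SM
open Filter

variable {k : Type} [Field k]

/-- `Γ^a × Γ^b = Γ^{a+b}` -/
noncomputable def powAdd (k : Type) [Field k] (X : Type) [CommRing X] [Algebra k X] (a b : ℕ) :
    Pow k X a ⊗[k] Pow k X b ≃ₐ[k] Pow k X (a + b) :=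
  AlgEquiv.ofAlgHom
    (Algebra.TensorProduct.productMap (powLift fun i => sg k X (Fin.castAdd b i))
      (powLift fun i => sg k X (Fin.natAdd a i)))
    (powLift (Fin.addCases
      (fun i => (Algebra.TensorProduct.includeLeft :
        Pow k X a →ₐ[k] Pow k X a ⊗[k] Pow k X b).comp (sg k X i))
      (fun i => (Algebra.TensorProduct.includeRight :
        Pow k X b →ₐ[k] Pow k X a ⊗[k] Pow k X b).comp (sg k X i))))
    (by
      apply pow_ext
      intro i x
      rw [AlgHom.comp_apply, powLift_single]
      refine Fin.addCases (fun i => ?_) (fun i => ?_) i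
      · simp only [Fin.addCases_left, AlgHom.comp_apply, Algebra.TensorProduct.includeLeft_apply,
          Algebra.TensorProduct.productMap_apply_tmul, map_one, mul_one, AlgHom.id_apply]
        rw [powLift_single]
      · simp only [Fin.addCases_right, AlgHom.comp_apply, Algebra.TensorProduct.includeRight_apply,
          Algebra.TensorProduct.productMap_apply_tmul, map_one, one_mul, AlgHom.id_apply]
        rw [powLift_single])
    (by
      apply Algebra.TensorProduct.ext
      · apply pow_ext
        intro i x
        simp only [AlgHom.comp_apply, AlgHom.restrictScalars_apply,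
          Algebra.TensorProduct.includeLeft_apply,
          Algebra.TensorProduct.productMap_apply_tmul, map_one, mul_one]
        rw [powLift_single, powLift_single]
        simp only [Fin.addCases_left, AlgHom.comp_apply, Algebra.TensorProduct.includeLeft_apply]
        rfl
      · apply pow_ext
        intro i x
        simp only [AlgHom.comp_apply, AlgHom.restrictScalars_apply,
          Algebra.TensorProduct.includeRight_apply,
          Algebra.TensorProduct.productMap_apply_tmul, map_one, one_mul]
        rw [powLift_single, powLift_single]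
        simp only [Fin.addCases_right, AlgHom.comp_apply,
          Algebra.TensorProduct.includeRight_apply]
        rfl)

/-- a family on `Fin (l+1)` is its value at `0` and the rest -/
noncomputable def finSplit' (k : Type) [Field k] (l : ℕ) (Y : Fin (l + 1) → Type)
    [∀ i, CommRing (Y i)] [∀ i, Algebra k (Y i)] :
    (∀ i, Y i) ≃ₐ[k] Y 0 × (∀ i : Fin l, Y i.succ) :=
  AlgEquiv.ofBijective
    ((Pi.evalAlgHom k Y 0).prod
      (AlgHom.pi fun i : Fin l => Pi.evalAlgHom k Y i.succ)) (by
    constructor
    · intro f g h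
      funext i
      refine Fin.cases ?_ (fun i => ?_) i
      · exact congrArg Prod.fst h
      · exact congrFun (congrArg Prod.snd h) i
    · rintro ⟨a, f⟩
      exact ⟨Fin.cons a f, rfl⟩)

variable [IsAlgClosed k]

theorem mdeg_pi' (l : ℕ) : ∀ (Y : Fin l → Type) [∀ i, CommRing (Y i)] [∀ i, Algebra k (Y i)]
    [∀ i, Module.Finite k (Y i)], mdeg k (∀ i, Y i) = ∑ i, mdeg k (Y i) := by
  induction l with
  | zero =>
    intro Y _ _ _
    rw [Finset.univ_eq_empty, Finset.sum_empty]
    exact Nat.le_zero.1 (mdeg_le (fam_zero (∀ i, Y i)))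
  | succ l ih =>
    intro Y _ _ _
    rw [mdeg_congr (finSplit' k l Y), mdeg_prod' k, ih (fun i => Y i.succ), Fin.sum_univ_succ]

/-- the coordinate ring of the disjoint union `Γ^{e 0} ⊔ ⋯ ⊔ Γ^{e (l-1)}` of powers of
`Γ = Spec A` -/
abbrev PowUnion (k : Type) [Field k] (A : Type) [CommRing A] [Algebra k A] {l : ℕ}
    (e : Fin l → ℕ) : Type :=
  ∀ i, Pow k A (e i)

section

variable (A : Type) [CommRing A] [Algebra k A] [Module.Finite k A] {l : ℕ} (e : Fin l → ℕ)

theorem mdeg_powUnion_aux (n : ℕ) : ∀ s : ℕ, mdeg k (Pow k (PowUnion k A e) n ⊗[k] Pow k A s) =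
    ∑ f : Fin n → Fin l, mdeg k (Pow k A (s + ∑ j, e (f j))) := by
  induction n with
  | zero =>
    intro s
    rw [Fintype.sum_unique, Finset.univ_eq_empty, Finset.sum_empty, add_zero]
    exact mdeg_congr ((Algebra.TensorProduct.congr (powZero k _) AlgEquiv.refl).trans
      (Algebra.TensorProduct.lid k _))
  | succ n ih =>
    intro s
    have h1 : mdeg k (Pow k (PowUnion k A e) (n + 1) ⊗[k] Pow k A s) =
        mdeg k (∀ i : Fin l, Pow k (PowUnion k A e) n ⊗[k] Pow k A (s + e i)) := by
      refine mdeg_congr ?_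
      refine (Algebra.TensorProduct.congr (powSucc k (PowUnion k A e) n) AlgEquiv.refl).trans ?_
      refine (Algebra.TensorProduct.assoc k k k (PowUnion k A e) (Pow k (PowUnion k A e) n)
        (Pow k A s)).trans ?_
      refine (Algebra.TensorProduct.comm k (PowUnion k A e)
        (Pow k (PowUnion k A e) n ⊗[k] Pow k A s)).trans ?_
      refine (Algebra.TensorProduct.piRight k k (Pow k (PowUnion k A e) n ⊗[k] Pow k A s)
        (fun i => Pow k A (e i))).trans ?_
      refine AlgEquiv.piCongrRight fun i => ?_
      exact (Algebra.TensorProduct.assoc k k k (Pow k (PowUnion k A e) n) (Pow k A s)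
        (Pow k A (e i))).trans (Algebra.TensorProduct.congr AlgEquiv.refl (powAdd k A s (e i)))
    rw [h1, mdeg_pi']
    rw [← (Fin.consEquiv fun _ : Fin (n + 1) => Fin l).sum_comp, Fintype.sum_prod_type]
    refine Finset.sum_congr rfl fun i _ => ?_
    rw [ih (s + e i)]
    refine Finset.sum_congr rfl fun f _ => ?_
    have h2 : s + e i + ∑ j, e (f j) = s + ∑ j, e ((Fin.consEquiv fun _ : Fin (n + 1) => Fin l)
        (i, f) j) := by
      rw [Fin.sum_univ_succ, add_assoc]
      rfl
    rw [h2]

theorem mdeg_powUnion (n : ℕ) : mdeg k (Pow k (PowUnion k A e) n) =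
    ∑ f : Fin n → Fin l, mdeg k (Pow k A (∑ j, e (f j))) := by
  let g : ℕ → ℕ := fun a => mdeg k (Pow k A a)
  have h1 : mdeg k (Pow k (PowUnion k A e) n ⊗[k] Pow k A 0) =
    ∑ f : Fin n → Fin l, g (0 + ∑ j, e (f j)) := mdeg_powUnion_aux (k := k) A e n 0
  simp only [Nat.zero_add] at h1
  refine Eq.trans ?_ h1
  exact mdeg_congr ((Algebra.TensorProduct.rid k k _).symm.trans
    (Algebra.TensorProduct.congr AlgEquiv.refl (powZero k A).symm))

theorem finrank_powUnion :
    Module.finrank k (PowUnion k A e) = ∑ i, Module.finrank k A ^ e i := by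
  rw [Module.finrank_pi_fintype]
  exact Finset.sum_congr rfl fun i _ => finrank_Pow' A (e i)

/-- **The defects of the powers of a disjoint union of powers.** -/
theorem defect_powUnion (n : ℕ) : defect k (Pow k (PowUnion k A e) n) =
    ∑ f : Fin n → Fin l, defect k (Pow k A (∑ j, e (f j))) := by
  have h1 := fadd k (Pow k (PowUnion k A e) n)
  rw [mdeg_powUnion, finrank_Pow', finrank_powUnion, Fintype.sum_pow] at h1
  have h2 : ∀ f : Fin n → Fin l, mdeg k (Pow k A (∑ j, e (f j))) =
      ∏ j, Module.finrank k A ^ e (f j) + defect k (Pow k A (∑ j, e (f j))) := by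
    intro f
    rw [← fadd k, finrank_Pow', Finset.prod_pow_eq_pow_sum]
  rw [Finset.sum_congr rfl fun f _ => h2 f, Finset.sum_add_distrib] at h1
  exact Nat.add_left_cancel h1

variable [Nontrivial A]

theorem rate_powUnion (hl : 1 ≤ l) :
    rate k (PowUnion k A e) = ∑ i, rate k A ^ e i := by
  have h1 := one_le_rate (k := k) A
  apply le_antisymm
  · have hη : ∀ η : ℝ, 0 < η → rate k (PowUnion k A e) ≤ ∑ i, (rate k A + η) ^ e i := by
      intro η hη
      obtain ⟨C, hC, h⟩ := rate_growth (k := k) A η hη
      rw [rate_eq (PowUnion k A e)]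
      refine irate_le_of_growth _ C _ hC ?_ fun n => ?_
      · have : Nonempty (Fin l) := ⟨⟨0, hl⟩⟩
        exact Finset.sum_pos (fun i _ => by positivity) Finset.univ_nonempty
      change (mdeg k (Pow k (PowUnion k A e) n) : ℝ) ≤ _
      rw [mdeg_powUnion, Fintype.sum_pow, Finset.mul_sum]
      push_cast
      refine Finset.sum_le_sum fun f _ => ?_
      refine (h _).trans (le_of_eq ?_)
      rw [Finset.prod_pow_eq_pow_sum]
    have hc : Tendsto (fun η : ℝ => ∑ i, (rate k A + η) ^ e i) (𝓝[>] 0)
        (𝓝 (∑ i, (rate k A + 0) ^ e i)) := by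
      have h3 : Continuous fun η : ℝ => ∑ i, (rate k A + η) ^ e i := by fun_prop
      exact (h3.tendsto 0).mono_left nhdsWithin_le_nhds
    rw [add_zero] at hc
    exact ge_of_tendsto hc (eventually_nhdsWithin_of_forall fun η h => hη η h)
  · rw [rate_eq (PowUnion k A e)]
    refine le_irate _ _ (Finset.sum_nonneg fun i _ => by positivity) fun n => ?_
    change _ ≤ (mdeg k (Pow k (PowUnion k A e) (n + 1)) : ℝ)
    rw [mdeg_powUnion, Fintype.sum_pow]
    push_cast
    refine Finset.sum_le_sum fun f _ => ?_
    rw [Finset.prod_pow_eq_pow_sum]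
    exact rate_pow_le A _

/-- **Q1 for a disjoint union of powers.** -/
theorem qOne_powUnion (he : ∃ i, 1 ≤ e i) : QOne k (PowUnion k A e) ↔ QOne k A := by
  obtain ⟨i, hi⟩ := he
  have hl : 1 ≤ l := by
    have := i.isLt
    omega
  have : Nonempty (Fin l) := ⟨i⟩
  have hnt : ∀ i, Nontrivial (Pow k A (e i)) := fun i =>
    Module.nontrivial_of_finrank_pos (R := k) (by
      rw [finrank_Pow']
      exact pow_pos Module.finrank_pos _)
  have hnt' : Nontrivial (PowUnion k A e) := Pi.nontrivial_at i
  have h1 := one_le_rate (k := k) A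
  have hd : (1 : ℝ) ≤ Module.finrank k A := by
    exact_mod_cast (Module.finrank_pos (R := k) (M := A))
  rw [qOne_iff_rate, qOne_iff_rate, rate_powUnion A e hl, finrank_powUnion]
  push_cast
  constructor
  · intro h
    refine le_antisymm ?_ (finrank_le_rate A)
    by_contra hcon
    push Not at hcon
    have h2 : ∑ i, (Module.finrank k A : ℝ) ^ e i < ∑ i, rate k A ^ e i :=
      Finset.sum_lt_sum (fun j _ => pow_le_pow_left₀ (by linarith) hcon.le _)
        ⟨i, Finset.mem_univ _, pow_lt_pow_left₀ hcon (by linarith) (by omega)⟩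
    linarith
  · intro h
    rw [h]

end

end Pool.Agent.TH671.DU
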