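import Pool.Agent.TH671.SH.Degen
import Pool.Agent.TH671.DU.Poly

/-!
# The growth rate is a limit, a dichotomy for Q1
-/

set_option autoImplicit false
set_option linter.unusedSectionVars false

namespace Pool.Agent.TH671.DU

open scoped TensorProduct PowerSeries Topology
open Pool.Agent.H826R3.SM
open Filter

variable {k : Type} [Field k] [IsAlgClosed k]
variable (A : Type) [CommRing A] [Algebra k A] [Module.Finite k A] [Nontrivial A]

theorem rate_lower (n : ℕ) :
    rate k A ^ n ≤ (Module.finrank k A : ℝ) ^ n + defect k (Pow k A n) := by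
  refine (rate_pow_le A n).trans (le_of_eq ?_)
  rw [← fadd k (Pow k A n), finrank_Pow']
  push_cast
  rfl

theorem rate_upper (η : ℝ) (hη : 0 < η) : ∃ C : ℝ, ∀ n,
    (Module.finrank k A : ℝ) ^ n + defect k (Pow k A n) ≤ C * (rate k A + η) ^ n := by
  obtain ⟨C, -, hG⟩ := rate_growth (k := k) A η hη
  refine ⟨C, fun n => ?_⟩
  have := hG n
  rw [← fadd k (Pow k A n), finrank_Pow'] at this
  push_cast at this
  exact this

/-- **The growth rate is a limit.** -/
theorem rate_tendsto : Tendsto (fun n : ℕ =>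
    ((Module.finrank k (Pow k A (n + 1)) + defect k (Pow k A (n + 1)) : ℕ) : ℝ) ^
      (1 / ((n : ℝ) + 1))) atTop (𝓝 (rate k A)) := by
  have h1 := one_le_rate (k := k) A
  refine tendsto_order.2 ⟨fun a ha => Eventually.of_forall fun n => lt_of_lt_of_le ha ?_,
    fun b hb => ?_⟩
  · unfold rate
    refine ciInf_le ⟨0, ?_⟩ n
    rintro _ ⟨n, rfl⟩
    positivity
  · obtain ⟨C, hC, hG⟩ := rate_growth (k := k) A ((b - rate k A) / 2) (by linarith)
    have ht := Pool.Agent.TH671.SH.tendsto_root' 0 (C + 1) (by positivity)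
      (rate k A + (b - rate k A) / 2) (by linarith)
    have hb' : rate k A + (b - rate k A) / 2 < b := by linarith
    filter_upwards [ht.eventually_lt_const hb'] with n hn
    refine lt_of_le_of_lt ?_ hn
    refine Real.rpow_le_rpow (by positivity) ?_ (by positivity)
    rw [fadd k (Pow k A (n + 1)), pow_zero, mul_one]
    refine (hG (n + 1)).trans ?_
    have : 0 ≤ (rate k A + (b - rate k A) / 2) ^ (n + 1) := by
      have : 0 ≤ rate k A + (b - rate k A) / 2 := by linarith
      positivity
    nlinarith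

/-- **Dichotomy.** -/
theorem dichotomy : QOne k A ∨ ∃ ε : ℝ, 0 < ε ∧
    Tendsto (fun n : ℕ => (defect k (Pow k A n) : ℝ) /
      (Module.finrank k A : ℝ) ^ ((1 + ε) * (n : ℝ))) atTop atTop := by
  by_cases h : QOne k A
  · exact Or.inl h
  refine Or.inr ?_
  have hd : (1 : ℝ) ≤ Module.finrank k A := by
    exact_mod_cast (Module.finrank_pos (R := k) (M := A))
  have hlt : (Module.finrank k A : ℝ) < rate k A :=
    lt_of_le_of_ne (finrank_le_rate A) fun h' => h ((qOne_iff_rate A).2 h'.symm)
  have h2 : Tendsto (fun ε : ℝ => (Module.finrank k A : ℝ) ^ (1 + ε)) (𝓝[>] 0)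
      (𝓝 ((Module.finrank k A : ℝ) ^ (1 + (0 : ℝ)))) := by
    have h3 : Continuous fun ε : ℝ => (Module.finrank k A : ℝ) ^ (1 + ε) :=
      (Real.continuous_const_rpow (by positivity)).comp (continuous_const.add continuous_id)
    exact (h3.tendsto 0).mono_left nhdsWithin_le_nhds
  rw [add_zero, Real.rpow_one] at h2
  obtain ⟨ε, hε, hε0⟩ := ((h2.eventually_lt_const hlt).and self_mem_nhdsWithin).exists
  refine ⟨ε, hε0, ?_⟩
  set y : ℝ := (Module.finrank k A : ℝ) ^ (1 + ε) with hy
  have hy0 : 0 < y := by positivity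
  have hdy : (Module.finrank k A : ℝ) ≤ y := by
    conv_lhs => rw [← Real.rpow_one (Module.finrank k A : ℝ)]
    exact Real.rpow_le_rpow_of_exponent_le hd (by linarith)
  have hq : 1 < rate k A / y := (one_lt_div hy0).2 hε
  refine tendsto_atTop_mono (f := fun n : ℕ => (rate k A / y) ^ n - 1) (fun n => ?_) ?_
  · rw [denom_eq', ← hy, div_pow, le_div_iff₀ (by positivity), sub_mul, one_mul,
      div_mul_cancel₀ _ (by positivity)]
    have h4 := rate_lower (k := k) A n
    have h5 : (Module.finrank k A : ℝ) ^ n ≤ y ^ n := pow_le_pow_left₀ (by linarith) hdy n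
    linarith
  · exact tendsto_atTop_add_const_right _ (-1) (tendsto_pow_atTop_atTop_of_one_lt hq)

end Pool.Agent.TH671.DU
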