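import Pool.Agent.TH671.DU.Formula

/-!
# Growth rates of the degrees of smoothable schemes which contain the powers
-/

set_option autoImplicit false

namespace Pool.Agent.TH671.DU

open scoped TensorProduct PowerSeries Topology
open Pool.Agent.H826R3.SM
open Filter

section submul

/-- the infimum of the `n`-th roots -/
noncomputable def irate (u : ℕ → ℕ) : ℝ := ⨅ n : ℕ, (u (n + 1) : ℝ) ^ (1 / ((n : ℝ) + 1))

theorem irate_le (u : ℕ → ℕ) (n : ℕ) : irate u ≤ (u (n + 1) : ℝ) ^ (1 / ((n : ℝ) + 1)) := by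
  refine ciInf_le ⟨0, ?_⟩ n
  rintro _ ⟨n, rfl⟩
  positivity

theorem irate_nonneg (u : ℕ → ℕ) : 0 ≤ irate u := by
  refine le_ciInf fun n => ?_
  positivity

theorem irate_pow_le (u : ℕ → ℕ) (n : ℕ) : irate u ^ (n + 1) ≤ u (n + 1) := by
  have h1 := pow_le_pow_left₀ (irate_nonneg u) (irate_le u n) (n + 1)
  refine h1.trans (le_of_eq ?_)
  rw [← Real.rpow_natCast, ← Real.rpow_mul (Nat.cast_nonneg _)]
  push_cast
  rw [one_div, inv_mul_cancel₀ (by positivity), Real.rpow_one]

theorem le_irate (u : ℕ → ℕ) (d : ℝ) (hd : 0 ≤ d) (h : ∀ n, d ^ (n + 1) ≤ u (n + 1)) :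
    d ≤ irate u := by
  refine le_ciInf fun n => ?_
  have h1 := Real.rpow_le_rpow (by positivity) (h n) (show (0 : ℝ) ≤ 1 / ((n : ℝ) + 1) by positivity)
  refine le_trans (le_of_eq ?_) h1
  rw [← Real.rpow_natCast, ← Real.rpow_mul hd]
  push_cast
  rw [one_div, mul_inv_cancel₀ (by positivity), Real.rpow_one]

theorem growth_submul (u : ℕ → ℕ) (h1 : ∀ n, 1 ≤ u n) (hs : ∀ m n, u (m + n) ≤ u m * u n)
    (η : ℝ) (hη : 0 < η) : ∃ C : ℝ, 0 ≤ C ∧ ∀ n, (u n : ℝ) ≤ C * (irate u + η) ^ n := by
  obtain ⟨N, hN⟩ := exists_lt_of_ciInf_lt (show irate u < irate u + η by linarith)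
  set x : ℝ := irate u + η with hx
  have hr1 : 1 ≤ irate u := le_irate u 1 zero_le_one fun n => by
    rw [one_pow]
    exact_mod_cast h1 (n + 1)
  have hx1 : 1 ≤ x := by linarith
  have hN' : (u (N + 1) : ℝ) ≤ x ^ (N + 1) := by
    have h2 := pow_le_pow_left₀ (by positivity) hN.le (N + 1)
    refine le_trans (le_of_eq ?_) h2
    rw [← Real.rpow_natCast, ← Real.rpow_mul (Nat.cast_nonneg _)]
    push_cast
    rw [one_div, inv_mul_cancel₀ (by positivity), Real.rpow_one]
  have hq : ∀ q, (u ((N + 1) * q) : ℝ) ≤ u 0 * x ^ ((N + 1) * q) := by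
    intro q
    induction q with
    | zero => simp
    | succ q ih =>
      have h3 : (u ((N + 1) * (q + 1)) : ℝ) ≤ u ((N + 1) * q) * u (N + 1) := by
        rw [mul_add, mul_one]
        exact_mod_cast hs _ _
      calc (u ((N + 1) * (q + 1)) : ℝ) ≤ u ((N + 1) * q) * u (N + 1) := h3
        _ ≤ (u 0 * x ^ ((N + 1) * q)) * x ^ (N + 1) :=
            mul_le_mul ih hN' (Nat.cast_nonneg _) (by positivity)
        _ = u 0 * x ^ ((N + 1) * (q + 1)) := by rw [mul_add, mul_one, pow_add]; ring
  set M : ℝ := ∑ r ∈ Finset.range (N + 1), (u r : ℝ) with hM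
  have hM0 : 0 ≤ M := Finset.sum_nonneg fun r _ => Nat.cast_nonneg _
  refine ⟨u 0 * M, by positivity, fun n => ?_⟩
  have hmod : n % (N + 1) < N + 1 := Nat.mod_lt _ (Nat.succ_pos N)
  have hle : (u (n % (N + 1)) : ℝ) ≤ M :=
    Finset.single_le_sum (f := fun r => (u r : ℝ)) (fun r _ => Nat.cast_nonneg _)
      (Finset.mem_range.2 hmod)
  have hn : (N + 1) * (n / (N + 1)) + n % (N + 1) = n := Nat.div_add_mod n (N + 1)
  calc (u n : ℝ) = u ((N + 1) * (n / (N + 1)) + n % (N + 1)) := by rw [hn]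
    _ ≤ u ((N + 1) * (n / (N + 1))) * u (n % (N + 1)) := by exact_mod_cast hs _ _
    _ ≤ (u 0 * x ^ ((N + 1) * (n / (N + 1)))) * M :=
        mul_le_mul (hq _) hle (Nat.cast_nonneg _) (by positivity)
    _ ≤ (u 0 * x ^ n) * M := by
        refine mul_le_mul_of_nonneg_right (mul_le_mul_of_nonneg_left
          (pow_le_pow_right₀ hx1 (by omega)) (Nat.cast_nonneg _)) hM0
    _ = u 0 * M * x ^ n := by ring

theorem irate_le_of_growth (u : ℕ → ℕ) (C x : ℝ) (hC : 0 ≤ C) (hx : 0 < x)
    (h : ∀ n, (u n : ℝ) ≤ C * x ^ n) : irate u ≤ x := by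
  by_contra hcon
  push Not at hcon
  have hq : 1 < irate u / x := (one_lt_div hx).2 hcon
  obtain ⟨n, hn⟩ := pow_unbounded_of_one_lt (C + 1) hq
  have h2 : (irate u / x) ^ n ≤ (irate u / x) ^ (n + 1) :=
    pow_le_pow_right₀ hq.le (Nat.le_succ n)
  have h3 := irate_pow_le u n
  have h4 := h (n + 1)
  have h5 : (irate u / x) ^ (n + 1) ≤ C := by
    rw [div_pow, div_le_iff₀ (by positivity)]
    exact h3.trans h4
  linarith

end submul

variable {k : Type} [Field k]

/-- the growth rate of the least degrees of the smoothable schemes which contain the powers of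
`Spec A`: the infimum of the `n`-th roots of `deg Γ^n + δ(Γ^n)`, `n ≥ 1` -/
noncomputable def rate (k : Type) [Field k] (A : Type) [CommRing A] [Algebra k A] : ℝ :=
  ⨅ n : ℕ, ((Module.finrank k (Pow k A (n + 1)) + defect k (Pow k A (n + 1)) : ℕ) : ℝ) ^
    (1 / ((n : ℝ) + 1))

variable [IsAlgClosed k]

section

variable (A : Type) [CommRing A] [Algebra k A] [Module.Finite k A]

theorem rate_eq : rate k A = irate fun n => mdeg k (Pow k A n) := by
  unfold rate irate
  congr 1
  funext n
  rw [fadd k (Pow k A (n + 1))]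

theorem mdeg_pow_add (m n : ℕ) :
    mdeg k (Pow k A (m + n)) ≤ mdeg k (Pow k A m) * mdeg k (Pow k A n) := by
  obtain ⟨D, hD⟩ := exists_fam (k := k) (Pow k A m)
  obtain ⟨E, hE⟩ := exists_fam (k := k) (Pow k A n)
  refine mdeg_le (Fam.join (mdeg_spec hD) (mdeg_spec hE)
    (powLift fun i => sg k A (Fin.castAdd n i)) (powLift fun i => sg k A (Fin.natAdd m i)) ?_)
  refine pow_eq_top _ fun i x => ?_
  refine Fin.addCases (fun i => ?_) (fun i => ?_) i
  · exact (le_sup_left : (powLift fun i => sg k A (Fin.castAdd n i)).range ≤ _)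
      ⟨sg k A i x, powLift_single _ i x⟩
  · exact (le_sup_right : (powLift fun i => sg k A (Fin.natAdd m i)).range ≤ _)
      ⟨sg k A i x, powLift_single _ i x⟩

theorem finrank_le_mdeg : Module.finrank k A ≤ mdeg k A := by
  have := fadd k A
  omega

variable [Nontrivial A]

theorem one_le_mdeg_pow (n : ℕ) : 1 ≤ mdeg k (Pow k A n) := by
  refine le_trans ?_ (finrank_le_mdeg (k := k) (Pow k A n))
  rw [finrank_Pow']
  exact Nat.one_le_pow _ _ Module.finrank_pos

theorem finrank_le_rate : (Module.finrank k A : ℝ) ≤ rate k A := by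
  rw [rate_eq]
  refine le_irate _ _ (Nat.cast_nonneg _) fun n => ?_
  have := finrank_le_mdeg (k := k) (Pow k A (n + 1))
  rw [finrank_Pow'] at this
  exact_mod_cast this

theorem rate_growth (η : ℝ) (hη : 0 < η) :
    ∃ C : ℝ, 0 ≤ C ∧ ∀ n, (mdeg k (Pow k A n) : ℝ) ≤ C * (rate k A + η) ^ n := by
  rw [rate_eq]
  exact growth_submul _ (one_le_mdeg_pow A) (mdeg_pow_add A) η hη

theorem rate_pow_le (n : ℕ) : rate k A ^ n ≤ mdeg k (Pow k A n) := by
  cases n with
  | zero =>
    rw [pow_zero]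
    exact_mod_cast one_le_mdeg_pow A 0
  | succ n =>
    rw [rate_eq]
    exact irate_pow_le (fun n => mdeg k (Pow k A n)) n

/-- **Growth after the addition of points.** -/
theorem rate_add_points (c : ℕ) : rate k (A × (Fin c → k)) = rate k A + c := by
  have h1 : (1 : ℝ) ≤ rate k A := by
    refine le_trans ?_ (finrank_le_rate A)
    exact_mod_cast (Module.finrank_pos (R := k) (M := A))
  apply le_antisymm
  · refine le_of_forall_pos_le_add fun η hη => ?_
    obtain ⟨C, hC, h⟩ := rate_growth (k := k) A η hη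
    rw [rate_eq (A × (Fin c → k))]
    refine irate_le_of_growth _ C _ hC (by positivity) fun n => ?_
    change (mdeg k (Pow k (A × (Fin c → k)) n) : ℝ) ≤ _
    rw [mdeg_pow_points]
    push_cast
    calc ∑ r ∈ Finset.range (n + 1), (n.choose r : ℝ) * ((c : ℝ) ^ (n - r) *
          (mdeg k (Pow k A r) : ℝ))
        ≤ ∑ r ∈ Finset.range (n + 1), (n.choose r : ℝ) * ((c : ℝ) ^ (n - r) *
          (C * (rate k A + η) ^ r)) := by
          refine Finset.sum_le_sum fun r _ => ?_
          gcongr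
          exact h r
      _ = C * (rate k A + c + η) ^ n := by
          rw [show rate k A + c + η = (rate k A + η) + c by ring, add_pow, Finset.mul_sum]
          refine Finset.sum_congr rfl fun r _ => ?_
          ring
  · rw [rate_eq (A × (Fin c → k))]
    refine le_irate _ _ (by positivity) fun n => ?_
    change _ ≤ (mdeg k (Pow k (A × (Fin c → k)) (n + 1)) : ℝ)
    rw [mdeg_pow_points]
    push_cast
    rw [add_pow]
    refine Finset.sum_le_sum fun r _ => ?_
    have h2 := rate_pow_le (k := k) A r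
    calc rate k A ^ r * (c : ℝ) ^ (n + 1 - r) * ((n + 1).choose r : ℝ)
        = ((n + 1).choose r : ℝ) * ((c : ℝ) ^ (n + 1 - r) * rate k A ^ r) := by ring
      _ ≤ _ := by gcongr

/-- **Q1 and the growth rate.** -/
theorem qOne_iff_rate : QOne k A ↔ rate k A = Module.finrank k A := by
  have hd : 0 < Module.finrank k A := Module.finrank_pos
  have hd1 : (1 : ℝ) ≤ Module.finrank k A := by exact_mod_cast hd
  have hex : ∀ n, ∃ D, InSmoothable k (Pow k A n) D := fun n => by
    obtain ⟨D, hD⟩ := exists_fam (k := k) (Pow k A n)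
    obtain ⟨D', -, h⟩ := hD.inSmoothable
    exact ⟨D', h⟩
  constructor
  · intro h
    apply le_antisymm _ (finrank_le_rate A)
    -- the rate is at most `d^(1+ε)` for all `ε`
    have h1 : ∀ ε : ℝ, 0 < ε → rate k A ≤ (Module.finrank k A : ℝ) ^ (1 + ε) := by
      intro ε hε
      obtain ⟨C, hC, hG⟩ := h.growth hex ε hε
      rw [rate_eq]
      refine irate_le_of_growth _ C _ hC (by positivity) fun n => ?_
      obtain ⟨D, hD1, hD2⟩ := hG n
      refine le_trans ?_ hD1
      exact_mod_cast mdeg_le hD2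
    have h2 : Tendsto (fun ε : ℝ => (Module.finrank k A : ℝ) ^ (1 + ε)) (𝓝[>] 0)
        (𝓝 ((Module.finrank k A : ℝ) ^ (1 + (0 : ℝ)))) := by
      have h3 : Continuous fun ε : ℝ => (Module.finrank k A : ℝ) ^ (1 + ε) :=
        (Real.continuous_const_rpow (by positivity)).comp (continuous_const.add continuous_id)
      exact (h3.tendsto 0).mono_left nhdsWithin_le_nhds
    rw [add_zero, Real.rpow_one] at h2
    exact ge_of_tendsto h2 (eventually_nhdsWithin_of_forall fun ε hε => h1 ε hε)
  · intro h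
    refine QOne.of_growth fun ε hε => ?_
    rcases Nat.lt_or_ge 1 (Module.finrank k A) with hd2 | hd2
    swap
    · have h1 : Module.finrank k A = 1 := by omega
      refine ⟨1, zero_le_one, fun n => ⟨1, ?_, Growth.one_of_finrank h1 n⟩⟩
      rw [h1]
      simp
    have hd3 : (1 : ℝ) < Module.finrank k A := by exact_mod_cast hd2
    have h1 : (Module.finrank k A : ℝ) < (Module.finrank k A : ℝ) ^ (1 + ε) := by
      conv_lhs => rw [← Real.rpow_one (Module.finrank k A : ℝ)]
      exact Real.rpow_lt_rpow_of_exponent_lt hd3 (by linarith)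
    obtain ⟨C, hC, hG⟩ := rate_growth (k := k) A
      ((Module.finrank k A : ℝ) ^ (1 + ε) - Module.finrank k A) (by linarith)
    refine ⟨C, hC, fun n => ⟨mdeg k (Pow k A n), ?_, ?_⟩⟩
    · have := hG n
      rwa [h, add_sub_cancel] at this
    · obtain ⟨D, hD⟩ := exists_fam (k := k) (Pow k A n)
      exact mdeg_spec hD

theorem qOne_add_points (c : ℕ) : QOne k (A × (Fin c → k)) ↔ QOne k A := by
  have hnt : Nontrivial (A × (Fin c → k)) := inferInstance
  rw [qOne_iff_rate, qOne_iff_rate, rate_add_points, Module.finrank_prod, Module.finrank_fin_fun]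
  push_cast
  constructor
  · intro h
    linarith
  · intro h
    linarith

end

end Pool.Agent.TH671.DU
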