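import Pool.Agent.TH671.SD.KThree
import Pool.Agent.TH671.DU.Rate

/-!
# Schemes of large defect: the apolar schemes of generic trilinear forms
-/

set_option autoImplicit false
set_option linter.unusedSectionVars false

namespace Pool.Agent.TH671.DU

open scoped TensorProduct PowerSeries
open Pool.Agent.H826R3.SM Pool.Agent.TH671.SD
open MvPolynomial

variable {k : Type} [Field k]

theorem exists_relation {σ τ : Type} [Fintype σ] [Fintype τ]
    (h : Fintype.card τ < Fintype.card σ) (g : σ → MvPolynomial τ k) :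
    ∃ Φ : MvPolynomial σ k, Φ ≠ 0 ∧ aeval g Φ = 0 := by
  by_contra hcon
  push Not at hcon
  have hind : AlgebraicIndependent k g := by
    rw [algebraicIndependent_iff]
    intro p hp
    by_contra hne
    exact hcon p hne hp
  have h1 := hind.lift_cardinalMk_le_trdeg
  rw [MvPolynomial.trdeg_of_isDomain] at h1
  simp only [Cardinal.mk_fintype, Cardinal.lift_natCast] at h1
  have h2 : Fintype.card σ ≤ Fintype.card τ := by exact_mod_cast h1
  omega

/-- decomposition over the algebraic closure of `k((t))` -/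
theorem exists_dec {A : Type} [CommRing A] [Algebra k A] {m : ℕ} {ι : Type} [Finite ι]
    (p : Fin m → ι → A) (γ : A →ₗ[k] k) {D' D : ℕ} (hDD : D' ≤ D) (hS : InSmoothable k A D') :
    ∃ (c : Fin D → LL k) (x : Fin D → Fin m × ι → LL k) (P : (Fin m → ι) → k⟦X⟧),
      ∀ a : Fin m → ι, (∑ t, c t * ∏ j, x t (j, a j) = algebraMap k⟦X⟧ (LL k) (P a)) ∧
        PowerSeries.constantCoeff (P a) = γ (∏ j, p j (a j)) := by
  classical
  have := Fintype.ofFinite ι
  obtain ⟨B, cB, aB, hBfin, ⟨𝒜, cA, aA, hfin, hflat, hred, e, he⟩, hD, f, hf⟩ := hS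
  have hfree : Module.Free k⟦X⟧ 𝒜 := Module.free_of_flat_of_isLocalRing
  -- the reduction map
  let ρ : 𝒜 →+* A :=
    f.toRingHom.comp (e.toRingHom.comp (Ideal.Quotient.mk _))
  have hρs : Function.Surjective ρ :=
    hf.comp (e.surjective.comp Ideal.Quotient.mk_surjective)
  have hρX : ρ (algebraMap k⟦X⟧ 𝒜 PowerSeries.X) = 0 := by
    change f (e (Ideal.Quotient.mk _ (algebraMap k⟦X⟧ 𝒜 PowerSeries.X))) = 0
    rw [Ideal.Quotient.eq_zero_iff_mem.mpr (Ideal.mem_span_singleton_self _), map_zero, map_zero]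
  have hρC : ∀ c : k, ρ (algebraMap k⟦X⟧ 𝒜 (PowerSeries.C c)) =
      algebraMap k A c := by
    intro c
    change f (e (Ideal.Quotient.mk _ (algebraMap k⟦X⟧ 𝒜 (PowerSeries.C c)))) = _
    rw [he, f.commutes]
  have hρ : ∀ (r : k⟦X⟧) (x : 𝒜), ρ (r • x) = PowerSeries.constantCoeff r • ρ x := by
    intro r x
    obtain ⟨r', hr'⟩ := powerSeries_split r
    conv_lhs => rw [hr']
    rw [add_smul, map_add, Algebra.smul_def, Algebra.smul_def, map_mul, map_mul, hρC, map_mul,
      map_mul, hρX, zero_mul, zero_mul, add_zero, ← Algebra.smul_def]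
  have hrank : Module.finrank k⟦X⟧ 𝒜 ≤ D := by
    refine le_trans ?_ hDD
    rw [← hD]
    exact finrank_family_le e he
  -- characters
  obtain ⟨T, fT, hT, χ, hχ⟩ := decomp hred
  choose aa haa using fun z : Fin m × ι => hρs (p z.1 z.2)
  obtain ⟨Ψ, hΨ⟩ := exists_lift_functional ρ hρ γ
  obtain ⟨c, hc⟩ := hχ Ψ
  obtain ⟨emb⟩ : Nonempty (T ↪ Fin D) :=
    Function.Embedding.nonempty_of_card_le (by simpa using hT.trans hrank)
  refine ⟨Function.extend emb c 0, Function.extend emb (fun t z => χ t (aa z)) 0,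
    fun a => Ψ (∏ j, aa (j, a j)), fun a => ⟨?_, ?_⟩⟩
  · rw [hc]
    symm
    refine Fintype.sum_of_injective emb emb.injective _ _ ?_ ?_
    · intro s hs
      rw [Function.extend_apply' _ _ _ (by simpa using hs)]
      simp
    · intro t
      rw [emb.injective.extend_apply, emb.injective.extend_apply, map_prod]
      exact mul_comm _ _
  · rw [hΨ, map_prod]
    simp only [haa]

/-- the generic sum of `D` product tensors -/
noncomputable def gsum (k : Type) [Field k] (D m : ℕ) (ι : Type) (a : Fin m → ι) :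
    MvPolynomial (Fin D × Option (Fin m × ι)) k :=
  ∑ t, X (t, none) * ∏ j, X (t, some (j, a j))

theorem exists_tensor [Infinite k] (m D : ℕ) (ι : Type) [Fintype ι]
    (h : D * (m * Fintype.card ι + 1) < Fintype.card ι ^ m) :
    ∃ T : (Fin m → ι) → k, ∀ (A : Type) [CommRing A] [Algebra k A] (p : Fin m → ι → A)
      (γ : A →ₗ[k] k), (∀ a, γ (∏ j, p j (a j)) = T a) → ∀ D' ≤ D, ¬ InSmoothable k A D' := by
  classical
  obtain ⟨Φ, hΦ, hrel⟩ := exists_relation (k := k) (σ := Fin m → ι)
    (τ := Fin D × Option (Fin m × ι)) (by simpa using h) (gsum k D m ι)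
  obtain ⟨T, hT⟩ : ∃ T : (Fin m → ι) → k, eval T Φ ≠ 0 := by
    by_contra hcon
    push Not at hcon
    exact hΦ (MvPolynomial.funext fun T => by rw [hcon T, map_zero])
  refine ⟨T, fun A _ _ p γ hγ D' hD' hS => hT ?_⟩
  obtain ⟨c, x, P, hP⟩ := exists_dec p γ hD' hS
  have hinj : Function.Injective (algebraMap k⟦X⟧ (LL k)) := by
    rw [IsScalarTower.algebraMap_eq k⟦X⟧ (LaurentSeries k) (LL k)]
    exact (algebraMap (LaurentSeries k) (LL k)).injective.comp
      (IsFractionRing.injective k⟦X⟧ (LaurentSeries k))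
  let v : Fin D × Option (Fin m × ι) → LL k := fun z => z.2.elim (c z.1) (x z.1)
  let φ : MvPolynomial (Fin D × Option (Fin m × ι)) k →+* LL k :=
    eval₂Hom ((algebraMap k⟦X⟧ (LL k)).comp PowerSeries.C) v
  have hφ : ∀ a, φ (gsum k D m ι a) = algebraMap k⟦X⟧ (LL k) (P a) := by
    intro a
    rw [← (hP a).1]
    simp only [gsum, φ, map_sum, map_mul, map_prod, coe_eval₂Hom, eval₂_X, v, Option.elim]
  have h1 : φ (aeval (gsum k D m ι) Φ) =
      algebraMap k⟦X⟧ (LL k) (eval₂ PowerSeries.C P Φ) := by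
    rw [MvPolynomial.aeval_def, MvPolynomial.hom_eval₂, MvPolynomial.hom_eval₂]
    have h4 : φ.comp (algebraMap k (MvPolynomial (Fin D × Option (Fin m × ι)) k)) =
        (algebraMap k⟦X⟧ (LL k)).comp PowerSeries.C := by
      ext r
      simp [φ]
    have h5 : (φ ∘ gsum k D m ι) = fun a => algebraMap k⟦X⟧ (LL k) (P a) := by
      funext a
      exact hφ a
    rw [h4]
    exact congrArg (fun v => eval₂ ((algebraMap k⟦X⟧ (LL k)).comp PowerSeries.C) v Φ) h5
  rw [hrel, map_zero] at h1
  have h2 : eval₂ PowerSeries.C P Φ = 0 := hinj (by rw [← h1, map_zero])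
  have h3 := congrArg (PowerSeries.constantCoeff (R := k)) h2
  rw [MvPolynomial.hom_eval₂, map_zero] at h3
  rw [MvPolynomial.eval, coe_eval₂Hom, ← h3]
  have h4 : (PowerSeries.constantCoeff (R := k)).comp PowerSeries.C = RingHom.id k := by
    ext r
    simp
  have h5 : (fun a => PowerSeries.constantCoeff (P a)) = T := by
    funext a
    exact (hP a).2.trans (hγ a)
  rw [h4]
  exact congrArg (fun v => eval₂ (RingHom.id k) v Φ) h5.symm

section closed

variable [IsAlgClosed k]

/-- Apolar schemes of generic trilinear forms. -/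
theorem exists_large (s D : ℕ) (h : D * (3 * s + 1) < s ^ 3) :
    ∃ T : Fin s → Fin s → Fin s → k, D < mdeg k (ApolarAlg (mform (t3 T))) ∧
      Module.finrank k (ApolarAlg (mform (t3 T))) ≤ 8 * s := by
  have : Infinite k := IsAlgClosed.instInfinite
  obtain ⟨T, hT⟩ := exists_tensor (k := k) 3 D (Fin s) (by simpa using h)
  let T' : Fin s → Fin s → Fin s → k := fun a b c => T ![a, b, c]
  have hT' : t3 T' = T := by
    funext a
    simp only [t3, T']
    congr 1
    funext i
    fin_cases i <;> rfl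
  refine ⟨T', ?_, ?_⟩
  · rw [hT']
    by_contra hcon
    push Not at hcon
    have hfin := finite_mform T
    obtain ⟨D', hD'⟩ := exists_fam (k := k) (ApolarAlg (mform T))
    obtain ⟨D₂, hD₂, hS⟩ := (mdeg_spec hD').inSmoothable
    exact hT _ (fun j i => Ideal.Quotient.mk _ (X (j, i))) (mfun T) (mfun_prod T) D₂
      (hD₂.trans hcon) hS
  · refine (finrank_mform_le (t3 T')).trans ?_
    have := mflat_t3_le T'
    rw [Fintype.card_fin] at this
    omega

theorem defect_pow_one (A : Type) [CommRing A] [Algebra k A] [Module.Finite k A] :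
    defect k (Pow k A 1) = defect k A :=
  defect_congr ((powSucc k A 0).trans ((Algebra.TensorProduct.congr AlgEquiv.refl
    (powZero k A)).trans (Algebra.TensorProduct.rid k k A)))

/-- lower bound for the defects of the powers of a scheme with many reduced points -/
theorem le_defect_pow_points (A : Type) [CommRing A] [Algebra k A] [Module.Finite k A]
    (c n : ℕ) (hn : 1 ≤ n) :
    n * c ^ (n - 1) * defect k A ≤ defect k (Pow k (A × (Fin c → k)) n) := by
  rw [defect_pow_points]
  refine le_trans ?_ (Finset.single_le_sum (f := fun r => n.choose r * (c ^ (n - r) *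
    defect k (Pow k A r))) (fun _ _ => Nat.zero_le _) (Finset.mem_range.2 (show 1 < n + 1 by omega)))
  rw [defect_pow_one, Nat.choose_one_right, mul_assoc]

/-- **The exponent `1` in Q1 is optimal.** -/
theorem exists_sharp (τ : ℝ) (hτ : τ < 1) :
    ∃ (A : Type) (_ : CommRing A) (_ : Algebra k A), Module.Finite k A ∧ Nontrivial A ∧
      ∀ n : ℕ, 1 ≤ n →
        (n : ℝ) * (Module.finrank k A : ℝ) ^ (τ * n) ≤ defect k (Pow k A n) := by
  -- we may assume that `τ` is nonnegative
  wlog hτ0 : 0 ≤ τ generalizing τ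
  · obtain ⟨A, c1, c2, h1, h2, h3⟩ := this 0 zero_lt_one le_rfl
    refine ⟨A, c1, c2, h1, h2, fun n hn => le_trans ?_ (h3 n hn)⟩
    have hd : (1 : ℝ) ≤ Module.finrank k A := by
      exact_mod_cast (Module.finrank_pos (R := k) (M := A))
    refine mul_le_mul_of_nonneg_left (Real.rpow_le_rpow_of_exponent_le hd ?_) (Nat.cast_nonneg _)
    push Not at hτ0
    have : (0 : ℝ) ≤ n := Nat.cast_nonneg n
    nlinarith
  -- choice of `s`
  have hlim : Filter.Tendsto (fun s : ℕ => (s : ℝ) ^ (1 - τ)) Filter.atTop Filter.atTop :=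
    (tendsto_rpow_atTop (by linarith)).comp tendsto_natCast_atTop_atTop
  obtain ⟨s, hs9, hs28⟩ := ((hlim.eventually_ge_atTop 9).and
    (Filter.eventually_ge_atTop 28)).exists
  obtain ⟨T, hT1, hT2⟩ := exists_large (k := k) s (9 * s) (by
    obtain ⟨t, rfl⟩ := Nat.exists_eq_add_of_le' hs28
    have : (t + 28) ^ 3 = 9 * (t + 28) * (3 * (t + 28) + 1) + 1 +
      (t ^ 3 + 57 * t ^ 2 + 831 * t + 531) := by ring
    omega)
  have hfin := finite_mform (t3 T)
  have hfa := fadd k (ApolarAlg (mform (t3 T)))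
  have hδ : s ≤ defect k (ApolarAlg (mform (t3 T))) := by omega
  have hnt : Nontrivial (ApolarAlg (mform (t3 T)) × (Fin s → k)) := by
    have : Nonempty (Fin s) := ⟨⟨0, by omega⟩⟩
    have : Nontrivial (Fin s → k) := Function.nontrivial
    obtain ⟨x, y, hxy⟩ := exists_pair_ne (Fin s → k)
    exact ⟨⟨(0, x), (0, y), fun h => hxy (congrArg Prod.snd h)⟩⟩
  refine ⟨ApolarAlg (mform (t3 T)) × (Fin s → k), inferInstance, inferInstance, inferInstance,
    hnt, fun n hn => ?_⟩
  have h1 := le_defect_pow_points (k := k) (ApolarAlg (mform (t3 T))) s n hn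
  have h2 : n * s ^ n ≤ defect k (Pow k (ApolarAlg (mform (t3 T)) × (Fin s → k)) n) := by
    refine le_trans ?_ h1
    obtain ⟨n, rfl⟩ := Nat.exists_eq_add_of_le' hn
    rw [Nat.add_sub_cancel, pow_succ, ← mul_assoc]
    exact Nat.mul_le_mul_left _ hδ
  have hd : (Module.finrank k (ApolarAlg (mform (t3 T)) × (Fin s → k)) : ℝ) ≤ 9 * s := by
    rw [Module.finrank_prod, Module.finrank_fin_fun]
    exact_mod_cast (by omega : Module.finrank k (ApolarAlg (mform (t3 T))) + s ≤ 9 * s)
  have hs0 : (0 : ℝ) < s := by exact_mod_cast (by omega : 0 < s)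
  have h3 : (Module.finrank k (ApolarAlg (mform (t3 T)) × (Fin s → k)) : ℝ) ^ τ ≤ s := by
    calc (Module.finrank k (ApolarAlg (mform (t3 T)) × (Fin s → k)) : ℝ) ^ τ
        ≤ (9 * s) ^ τ := Real.rpow_le_rpow (Nat.cast_nonneg _) hd hτ0
      _ = 9 ^ τ * (s : ℝ) ^ τ := Real.mul_rpow (by norm_num) hs0.le
      _ ≤ 9 * (s : ℝ) ^ τ := by
          gcongr
          calc (9 : ℝ) ^ τ ≤ 9 ^ (1 : ℝ) :=
                Real.rpow_le_rpow_of_exponent_le (by norm_num) hτ.le
            _ = 9 := Real.rpow_one _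
      _ ≤ (s : ℝ) ^ (1 - τ) * (s : ℝ) ^ τ := by gcongr
      _ = s := by rw [← Real.rpow_add hs0, sub_add_cancel, Real.rpow_one]
  calc (n : ℝ) * (Module.finrank k (ApolarAlg (mform (t3 T)) × (Fin s → k)) : ℝ) ^ (τ * n)
      = n * ((Module.finrank k (ApolarAlg (mform (t3 T)) × (Fin s → k)) : ℝ) ^ τ) ^ n := by
        rw [Real.rpow_mul (Nat.cast_nonneg _), Real.rpow_natCast]
    _ ≤ n * (s : ℝ) ^ n := by gcongr
    _ ≤ _ := by exact_mod_cast h2

end closed

end Pool.Agent.TH671.DU
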