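import Pool.Agent.TH671.DU.Split
import Pool.Agent.H826R3.SM.QOne

/-!
# The least degree of a smoothable scheme which contains `Spec A`
-/

set_option autoImplicit false

namespace Pool.Agent.TH671.DU

open scoped TensorProduct PowerSeries
open Pool.Agent.H826R3.SM
open MvPolynomial

variable {k : Type} [Field k]

/-- the least degree of a family which contains `Spec A` -/
noncomputable def mdeg (k : Type) [Field k] (A : Type) [CommRing A] [Algebra k A] : ℕ :=
  sInf {D : ℕ | Fam k A D}

section basic

variable {A B : Type} [CommRing A] [Algebra k A] [CommRing B] [Algebra k B]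

theorem mdeg_le {D : ℕ} (h : Fam k A D) : mdeg k A ≤ D := Nat.sInf_le h

theorem mdeg_spec {D : ℕ} (h : Fam k A D) : Fam k A (mdeg k A) :=
  Nat.sInf_mem (⟨D, h⟩ : {D : ℕ | Fam k A D}.Nonempty)

theorem mdeg_congr (e : A ≃ₐ[k] B) : mdeg k A = mdeg k B := by
  unfold mdeg
  congr 1
  ext D
  exact ⟨fun h => Fam.of_surjective h e.toAlgHom e.surjective,
    fun h => Fam.of_surjective h e.symm.toAlgHom e.symm.surjective⟩

theorem mdeg_prod {D E : ℕ} (hA : Fam k A D) (hB : Fam k B E) :
    mdeg k (A × B) = mdeg k A + mdeg k B := by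
  apply le_antisymm
  · exact mdeg_le ((mdeg_spec hA).prod (mdeg_spec hB))
  · obtain ⟨D₁, D₂, h1, h2, h3⟩ := fam_split (mdeg_spec (hA.prod hB))
    have := mdeg_le h2
    have := mdeg_le h3
    omega

theorem finrank_add_defect {D : ℕ} (h : Fam k A D) :
    Module.finrank k A + defect k A = mdeg k A := by
  apply le_antisymm
  · obtain ⟨D', hD', hS⟩ := (mdeg_spec h).inSmoothable
    refine le_trans ?_ hD'
    have h1 := finrank_le_of_inSmoothable hS
    have h2 : D' - Module.finrank k A ∈ {e : ℕ | InSmoothable k A (Module.finrank k A + e)} := by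
      change InSmoothable k A _
      rwa [Nat.add_sub_cancel' h1]
    have h3 : defect k A ≤ D' - Module.finrank k A := Nat.sInf_le h2
    omega
  · obtain ⟨D', -, hS⟩ := h.inSmoothable
    exact mdeg_le (defect_spec hS).fam

end basic

section exist

variable [IsAlgClosed k]

theorem aeval_mem_pow {A σ : Type} [CommRing A] [Algebra k A] (a : σ → A) {n : ℕ}
    {F : MvPolynomial σ k} (hF : F.IsHomogeneous n) :
    aeval a F ∈ Ideal.span (Set.range a) ^ n := by
  have h1 : F ∈ idealOfVars σ k ^ n := by
    rw [mem_pow_idealOfVars_iff']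
    intro s hs
    exact hF.coeff_eq_zero (by omega)
  have h2 : aeval (R := k) a F ∈ (idealOfVars σ k ^ n).map (aeval (R := k) a) :=
    Ideal.mem_map_of_mem _ h1
  rw [Ideal.map_pow] at h2
  have h3 : (idealOfVars σ k).map (aeval (R := k) a) ≤ Ideal.span (Set.range a) := by
    rw [idealOfVars, Ideal.map_span, Ideal.span_le]
    rintro _ ⟨_, ⟨i, rfl⟩, rfl⟩
    rw [aeval_X]
    exact Ideal.subset_span ⟨i, rfl⟩
  exact Ideal.pow_right_mono h3 n h2

theorem exists_fam_gen {A : Type} [CommRing A] [Algebra k A] {σ : Type} [Fintype σ] (a : σ → A)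
    (hgen : Algebra.adjoin k (Set.range a) = ⊤) (s : ℕ)
    (hnil : Ideal.span (Set.range a) ^ (s + 1) = ⊥) : ∃ D, Fam k A D := by
  classical
  have hinf : Infinite k := IsAlgClosed.instInfinite
  obtain ⟨c⟩ : Nonempty (Fin (s + 1) ↪ k) := ⟨(Fin.valEmbedding).trans (Infinite.natEmbedding k)⟩
  obtain ⟨N, hN1, hN2⟩ : ∃ N : ℕ, s + 1 ≤ N ∧ (N : k) ≠ 0 := by
    by_cases h : ((s + 1 : ℕ) : k) = 0
    · refine ⟨s + 2, by omega, ?_⟩
      have : ((s + 2 : ℕ) : k) = ((s + 1 : ℕ) : k) + 1 := by push_cast; ring
      rw [this, h, zero_add]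
      exact one_ne_zero
    · exact ⟨s + 1, le_rfl, h⟩
  have hNz : NeZero (N : k) := ⟨hN2⟩
  obtain ⟨ζ, hζ⟩ := HasEnoughRootsOfUnity.exists_primitiveRoot k N
  let φ : MvPolynomial σ k →ₐ[k] A := aeval a
  have hφ : Function.Surjective φ := by
    rw [← AlgHom.range_eq_top, ← Algebra.adjoin_range_eq_range_aeval]
    exact hgen
  have hS : HasSec k (MvPolynomial σ k ⧸ RingHom.ker φ) ((σ → Fin (s + 1)) × Fin N) := by
    refine hasSec_of_points (RingHom.ker φ) (gp c) N ζ hζ hN2 fun F hF => ?_
    have h0 : ∀ e ≤ s, homogeneousComponent e F = 0 := fun e he =>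
      component_eq_zero c c.injective he F fun t => hF e (by omega) t
    rw [RingHom.mem_ker]
    have h1 : F = ∑ e ∈ Finset.range (F.totalDegree + 1), homogeneousComponent e F :=
      (sum_homogeneousComponent F).symm
    rw [h1, map_sum]
    refine Finset.sum_eq_zero fun e _ => ?_
    by_cases he : e ≤ s
    · rw [h0 e he, map_zero]
    · have h2 : φ (homogeneousComponent e F) ∈ Ideal.span (Set.range a) ^ e :=
        aeval_mem_pow a (homogeneousComponent_isHomogeneous e F)
      have h3 := Ideal.pow_le_pow_right (I := Ideal.span (Set.range a)) (show s + 1 ≤ e by omega) h2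
      rw [hnil] at h3
      exact h3
  obtain ⟨D, -, hD⟩ := hS.inSmoothable
  exact ⟨D, hD.fam.of_surjective (Ideal.quotientKerAlgEquivOfSurjective hφ).toAlgHom
    (Ideal.quotientKerAlgEquivOfSurjective hφ).surjective⟩

theorem exists_fam_local (A : Type) [CommRing A] [Algebra k A]
    [Module.Finite k A] [IsLocalRing A] : ∃ D, Fam k A D := by
  have hart : IsArtinianRing A := IsArtinianRing.of_finite k A
  set M : Ideal A := IsLocalRing.maximalIdeal A with hM
  have hMmax : M.IsMaximal := IsLocalRing.maximalIdeal.isMaximal A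
  let _ : Field (A ⧸ M) := Ideal.Quotient.field M
  have hbij : Function.Bijective (algebraMap k (A ⧸ M)) :=
    IsAlgClosed.algebraMap_bijective_of_isIntegral
  let ee : k ≃ₐ[k] (A ⧸ M) := AlgEquiv.ofBijective (Algebra.ofId k (A ⧸ M)) hbij
  let aug : A →ₐ[k] k := ee.symm.toAlgHom.comp (Ideal.Quotient.mkₐ k M)
  have haug : ∀ x, aug x = 0 → x ∈ M := by
    intro x hx
    have h1 : ee.symm (Ideal.Quotient.mk M x) = 0 := hx
    rw [map_eq_zero_iff _ ee.symm.injective] at h1
    exact Ideal.Quotient.eq_zero_iff_mem.mp h1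
  let W : Submodule k A := M.restrictScalars k
  let b := Module.finBasis k W
  let a : Fin (Module.finrank k W) → A := fun i => (b i : A)
  have hWspan : W ≤ Submodule.span k (Set.range a) := by
    intro x hx
    have h1 : x = ((∑ i, b.repr ⟨x, hx⟩ i • b i : W) : A) := by
      rw [b.sum_repr]
    rw [h1, Submodule.coe_sum]
    refine Submodule.sum_mem _ fun i _ => ?_
    rw [Submodule.coe_smul]
    exact Submodule.smul_mem _ _ (Submodule.subset_span ⟨i, rfl⟩)
  have hgen : Algebra.adjoin k (Set.range a) = ⊤ := by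
    rw [eq_top_iff]
    rintro x -
    have h1 : x - algebraMap k A (aug x) ∈ M := by
      apply haug
      rw [map_sub, AlgHom.commutes]
      exact sub_self _
    have h2 : x - algebraMap k A (aug x) ∈ Algebra.adjoin k (Set.range a) :=
      Algebra.span_le_adjoin k _ (hWspan h1)
    have h3 : x = (x - algebraMap k A (aug x)) + algebraMap k A (aug x) := by ring
    rw [h3]
    exact Subalgebra.add_mem _ h2 (Subalgebra.algebraMap_mem _ _)
  obtain ⟨e, he⟩ : ∃ e, M ^ e = ⊥ := by
    have h1 := IsArtinianRing.isNilpotent_jacobson_bot (R := A)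
    rw [IsLocalRing.jacobson_eq_maximalIdeal ⊥ bot_ne_top] at h1
    exact h1
  refine exists_fam_gen a hgen e ?_
  have h1 : Ideal.span (Set.range a) ≤ M := by
    rw [Ideal.span_le]
    rintro _ ⟨i, rfl⟩
    exact (b i).2
  rw [eq_bot_iff]
  refine (Ideal.pow_right_mono h1 _).trans ?_
  rw [pow_succ, he]
  simp

theorem exists_fam_aux (n : ℕ) :
    ∀ (A : Type) [CommRing A] [Algebra k A] [Module.Finite k A],
      Module.finrank k A = n → ∃ D, Fam k A D := by
  induction n using Nat.strong_induction_on with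
  | _ n ih =>
    intro A _ _ _ hn
    by_cases hnt : Nontrivial A
    swap
    · have hs : Subsingleton A := not_nontrivial_iff_subsingleton.1 hnt
      exact ⟨1, fam_self.of_surjective (Algebra.ofId k A) fun x => ⟨0, Subsingleton.elim _ _⟩⟩
    by_cases hloc : IsLocalRing A
    · exact exists_fam_local A
    have hart : IsArtinianRing A := IsArtinianRing.of_finite k A
    obtain ⟨e, he, hu, hu'⟩ := exists_idem hloc
    let F : A ≃ₐ[k] (A ⧸ Ideal.span {e}) × (A ⧸ Ideal.span {1 - e}) :=
      AlgEquiv.ofBijective _ (crt_bij k e he)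
    have hnt1 : Nontrivial (A ⧸ Ideal.span {e}) := by
      rw [Ideal.Quotient.nontrivial_iff, Ne, Ideal.span_singleton_eq_top]
      exact hu
    have hnt2 : Nontrivial (A ⧸ Ideal.span {1 - e}) := by
      rw [Ideal.Quotient.nontrivial_iff, Ne, Ideal.span_singleton_eq_top]
      exact hu'
    have hsum : Module.finrank k A = Module.finrank k (A ⧸ Ideal.span {e}) +
        Module.finrank k (A ⧸ Ideal.span {1 - e}) := by
      rw [F.toLinearEquiv.finrank_eq, Module.finrank_prod]
    have hp1 : 0 < Module.finrank k (A ⧸ Ideal.span {e}) := Module.finrank_pos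
    have hp2 : 0 < Module.finrank k (A ⧸ Ideal.span {1 - e}) := Module.finrank_pos
    obtain ⟨D₁, g1⟩ := ih _ (by omega) (A ⧸ Ideal.span {e}) rfl
    obtain ⟨D₂, g2⟩ := ih _ (by omega) (A ⧸ Ideal.span {1 - e}) rfl
    exact ⟨_, (g1.prod g2).of_surjective F.symm.toAlgHom F.symm.surjective⟩

/-- every finite scheme lies in a smoothable one -/
theorem exists_fam (A : Type) [CommRing A] [Algebra k A] [Module.Finite k A] : ∃ D, Fam k A D :=
  exists_fam_aux _ A rfl

variable (k)

theorem fadd (A : Type) [CommRing A] [Algebra k A] [Module.Finite k A] :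
    Module.finrank k A + defect k A = mdeg k A := by
  obtain ⟨D, hD⟩ := exists_fam (k := k) A
  exact finrank_add_defect hD

theorem mdeg_prod' (A B : Type) [CommRing A] [Algebra k A] [Module.Finite k A] [CommRing B]
    [Algebra k B] [Module.Finite k B] : mdeg k (A × B) = mdeg k A + mdeg k B := by
  obtain ⟨D, hD⟩ := exists_fam (k := k) A
  obtain ⟨E, hE⟩ := exists_fam (k := k) B
  exact mdeg_prod hD hE

/-- **The defect is additive.** -/
theorem defect_prod (A B : Type) [CommRing A] [Algebra k A] [Module.Finite k A] [CommRing B]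
    [Algebra k B] [Module.Finite k B] : defect k (A × B) = defect k A + defect k B := by
  have h1 := fadd k A
  have h2 := fadd k B
  have h3 := fadd k (A × B)
  rw [Module.finrank_prod, mdeg_prod' k A B] at h3
  omega

end exist

end Pool.Agent.TH671.DU
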