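import Pool.Agent.TH671.DU.Powers

/-!
# The binomial formula for the defect
-/

set_option autoImplicit false

namespace Pool.Agent.TH671.DU

open scoped TensorProduct PowerSeries
open Pool.Agent.H826R3.SM

variable {k : Type} [Field k] [IsAlgClosed k]

theorem finrank_Pow' (X : Type) [CommRing X] [Algebra k X] [Module.Finite k X] (n : ℕ) :
    Module.finrank k (Pow k X n) = Module.finrank k X ^ n := finrank_Pow n

section prod

variable (A B : Type) [CommRing A] [Algebra k A] [Module.Finite k A] [CommRing B]
  [Algebra k B] [Module.Finite k B]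

theorem mdeg_pow_prod (n : ℕ) : mdeg k (Pow k (A × B) n) =
    ∑ r ∈ Finset.range (n + 1), n.choose r * mdeg k (Pow k A r ⊗[k] Pow k B (n - r)) := by
  let f : ℕ → ℕ → ℕ := fun a b => mdeg k (Pow k A a ⊗[k] Pow k B b)
  have h1 : gg k A B n 0 0 = ∑ r ∈ Finset.range (n + 1), n.choose r * f (0 + r) (0 + (n - r)) :=
    gg_eq A B n 0 0
  simp only [Nat.zero_add] at h1
  refine Eq.trans ?_ h1
  exact mdeg_congr ((Algebra.TensorProduct.rid k k (Pow k (A × B) n)).symm.trans
    (Algebra.TensorProduct.congr AlgEquiv.refl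
      ((Algebra.TensorProduct.congr (powZero k A) (powZero k B)).trans
        (Algebra.TensorProduct.lid k k)).symm))

/-- **The binomial formula.** -/
theorem defect_pow_prod (n : ℕ) : defect k (Pow k (A × B) n) =
    ∑ r ∈ Finset.range (n + 1), n.choose r * defect k (Pow k A r ⊗[k] Pow k B (n - r)) := by
  have h1 := fadd k (Pow k (A × B) n)
  rw [mdeg_pow_prod A B n, finrank_Pow', Module.finrank_prod, add_pow] at h1
  have h2 : ∀ r ∈ Finset.range (n + 1), n.choose r * mdeg k (Pow k A r ⊗[k] Pow k B (n - r)) =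
      Module.finrank k A ^ r * Module.finrank k B ^ (n - r) * n.choose r +
        n.choose r * defect k (Pow k A r ⊗[k] Pow k B (n - r)) := by
    intro r _
    rw [← fadd k (Pow k A r ⊗[k] Pow k B (n - r)), Module.finrank_tensorProduct, finrank_Pow',
      finrank_Pow']
    ring
  rw [Finset.sum_congr rfl h2, Finset.sum_add_distrib] at h1
  exact Nat.add_left_cancel h1

end prod

section points

omit [IsAlgClosed k] in
theorem fam_zero (A : Type) [CommRing A] [Algebra k A] [Subsingleton A] : Fam k A 0 := by
  refine ⟨PUnit, inferInstance, inferInstance, inferInstance, inferInstance, ?_, ?_,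
    { toFun := fun _ => 0
      map_one' := Subsingleton.elim _ _
      map_mul' := fun _ _ => Subsingleton.elim _ _
      map_zero' := rfl
      map_add' := fun _ _ => Subsingleton.elim _ _ }, fun a => ⟨PUnit.unit, Subsingleton.elim _ _⟩,
    fun c => Subsingleton.elim _ _⟩
  · have : Subsingleton (LL k ⊗[k⟦X⟧] PUnit) := by
      infer_instance
    exact ⟨fun x _ => Subsingleton.elim _ _⟩
  · exact le_of_eq Module.finrank_zero_of_subsingleton

/-- a function on `Fin (c+1)` is its value at `0` and the rest -/
noncomputable def finSplit (k : Type) [Field k] (Y : Type) [CommRing Y] [Algebra k Y] (c : ℕ) :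
    (Fin (c + 1) → Y) ≃ₐ[k] Y × (Fin c → Y) :=
  AlgEquiv.ofBijective
    ((Pi.evalAlgHom k (fun _ : Fin (c + 1) => Y) 0).prod
      (AlgHom.pi fun i : Fin c => Pi.evalAlgHom k (fun _ : Fin (c + 1) => Y) i.succ)) (by
    constructor
    · intro f g h
      funext i
      refine Fin.cases ?_ (fun i => ?_) i
      · exact congrArg Prod.fst h
      · exact congrFun (congrArg Prod.snd h) i
    · rintro ⟨a, f⟩
      exact ⟨Fin.cons a f, rfl⟩)

theorem mdeg_pi (Y : Type) [CommRing Y] [Algebra k Y] [Module.Finite k Y] (c : ℕ) :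
    mdeg k (Fin c → Y) = c * mdeg k Y := by
  induction c with
  | zero =>
    rw [zero_mul]
    exact Nat.le_zero.1 (mdeg_le (fam_zero (Fin 0 → Y)))
  | succ c ih =>
    rw [mdeg_congr (finSplit k Y c), mdeg_prod' k, ih]
    ring

theorem mdeg_tensor_points (Y : Type) [CommRing Y] [Algebra k Y] [Module.Finite k Y] (c s : ℕ) :
    mdeg k (Y ⊗[k] Pow k (Fin c → k) s) = c ^ s * mdeg k Y := by
  induction s with
  | zero =>
    rw [pow_zero, one_mul]
    exact mdeg_congr ((Algebra.TensorProduct.congr AlgEquiv.refl (powZero k (Fin c → k))).trans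
      (Algebra.TensorProduct.rid k k Y))
  | succ s ih =>
    have h1 : mdeg k (Y ⊗[k] Pow k (Fin c → k) (s + 1)) =
        mdeg k (Fin c → (Y ⊗[k] Pow k (Fin c → k) s)) := by
      refine mdeg_congr ?_
      refine (Algebra.TensorProduct.congr AlgEquiv.refl (powSucc k (Fin c → k) s)).trans ?_
      refine (Algebra.TensorProduct.leftComm k Y (Fin c → k) (Pow k (Fin c → k) s)).trans ?_
      refine (Algebra.TensorProduct.comm k (Fin c → k) (Y ⊗[k] Pow k (Fin c → k) s)).trans ?_
      exact Algebra.TensorProduct.piScalarRight k k (Y ⊗[k] Pow k (Fin c → k) s) (Fin c)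
    rw [h1, mdeg_pi, ih, pow_succ]
    ring

theorem defect_tensor_points (Y : Type) [CommRing Y] [Algebra k Y] [Module.Finite k Y]
    (c s : ℕ) : defect k (Y ⊗[k] Pow k (Fin c → k) s) = c ^ s * defect k Y := by
  have h1 := fadd k (Y ⊗[k] Pow k (Fin c → k) s)
  rw [mdeg_tensor_points, ← fadd k Y, Module.finrank_tensorProduct, finrank_Pow',
    Module.finrank_fin_fun, mul_add, mul_comm (Module.finrank k Y)] at h1
  exact Nat.add_left_cancel h1

/-- **The formula for the addition of points.** -/
theorem defect_pow_points (A : Type) [CommRing A] [Algebra k A] [Module.Finite k A] (c n : ℕ) :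
    defect k (Pow k (A × (Fin c → k)) n) =
      ∑ r ∈ Finset.range (n + 1), n.choose r * (c ^ (n - r) * defect k (Pow k A r)) := by
  rw [defect_pow_prod]
  exact Finset.sum_congr rfl fun r _ => by rw [defect_tensor_points]

theorem mdeg_pow_points (A : Type) [CommRing A] [Algebra k A] [Module.Finite k A] (c n : ℕ) :
    mdeg k (Pow k (A × (Fin c → k)) n) =
      ∑ r ∈ Finset.range (n + 1), n.choose r * (c ^ (n - r) * mdeg k (Pow k A r)) := by
  rw [mdeg_pow_prod]
  exact Finset.sum_congr rfl fun r _ => by rw [mdeg_tensor_points]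

theorem defect_congr {A B : Type} [CommRing A] [Algebra k A] [CommRing B] [Algebra k B]
    [Module.Finite k A] (e : A ≃ₐ[k] B) : defect k A = defect k B := by
  have hB : Module.Finite k B := Module.Finite.equiv e.toLinearEquiv
  have h1 := fadd k A
  have h2 := fadd k B
  rw [mdeg_congr e, e.toLinearEquiv.finrank_eq] at h1
  omega

end points

end Pool.Agent.TH671.DU
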