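import Pool.Agent.TH671.DU.Base

/-!
# Powers of a disjoint union
-/

set_option autoImplicit false

namespace Pool.Agent.TH671.DU

open scoped TensorProduct PowerSeries
open Pool.Agent.H826R3.SM

variable {k : Type} [Field k]

section iso

variable {X Y : Type} [CommRing X] [Algebra k X] [CommRing Y] [Algebra k Y]

theorem pow_ext {n : ℕ} {f g : Pow k X n →ₐ[k] Y}
    (h : ∀ i x, f (sg k X i x) = g (sg k X i x)) : f = g := by
  have h1 : AlgHom.equalizer f g = ⊤ :=
    pow_eq_top (AlgHom.equalizer f g) fun i x => (AlgHom.mem_equalizer f g _).2 (h i x)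
  refine AlgHom.ext fun x => ?_
  have : x ∈ AlgHom.equalizer f g := by rw [h1]; trivial
  exact this

/-- `Γ^{n+1} = Γ × Γ^n` -/
noncomputable def powSucc (k : Type) [Field k] (X : Type) [CommRing X] [Algebra k X] (n : ℕ) :
    Pow k X (n + 1) ≃ₐ[k] X ⊗[k] Pow k X n :=
  AlgEquiv.ofAlgHom
    (powLift (Fin.cons (Algebra.TensorProduct.includeLeft : X →ₐ[k] X ⊗[k] Pow k X n)
      fun i => (Algebra.TensorProduct.includeRight : Pow k X n →ₐ[k] X ⊗[k] Pow k X n).comp
        (sg k X i)))
    (Algebra.TensorProduct.productMap (sg k X 0) (powLift fun i => sg k X i.succ))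
    (by
      apply Algebra.TensorProduct.ext
      · ext x
        simp only [AlgHom.comp_apply, Algebra.TensorProduct.includeLeft_apply,
          Algebra.TensorProduct.productMap_apply_tmul, map_one, mul_one]
        rw [powLift_single]
        rfl
      · apply pow_ext
        intro i x
        simp only [AlgHom.comp_apply, AlgHom.restrictScalars_apply,
          Algebra.TensorProduct.includeRight_apply,
          Algebra.TensorProduct.productMap_apply_tmul, map_one, one_mul]
        rw [powLift_single, powLift_single]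
        rfl)
    (by
      apply pow_ext
      intro i x
      rw [AlgHom.comp_apply, powLift_single]
      refine Fin.cases ?_ (fun i => ?_) i
      · simp only [Fin.cons_zero, Algebra.TensorProduct.includeLeft_apply,
          Algebra.TensorProduct.productMap_apply_tmul, map_one, mul_one, AlgHom.id_apply]
      · simp only [Fin.cons_succ, AlgHom.comp_apply, Algebra.TensorProduct.includeRight_apply,
          Algebra.TensorProduct.productMap_apply_tmul, map_one, one_mul, AlgHom.id_apply]
        rw [powLift_single])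

/-- `Γ^0` is a point -/
noncomputable def powZero (k : Type) [Field k] (X : Type) [CommRing X] [Algebra k X] :
    Pow k X 0 ≃ₐ[k] k :=
  AlgEquiv.ofAlgHom (powLift fun i => i.elim0) (Algebra.ofId k _)
    (by ext)
    (by
      apply pow_ext
      intro i
      exact i.elim0)

end iso

theorem choose_sum (n i j : ℕ) (f : ℕ → ℕ → ℕ) :
    ∑ r ∈ Finset.range (n + 1 + 1), (n + 1).choose r * f (i + r) (j + (n + 1 - r)) =
      ∑ r ∈ Finset.range (n + 1), n.choose r * f (i + 1 + r) (j + (n - r)) +
        ∑ r ∈ Finset.range (n + 1), n.choose r * f (i + r) (j + 1 + (n - r)) := by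
  have h1 : ∑ r ∈ Finset.range (n + 1), n.choose r * f (i + r) (j + 1 + (n - r)) =
      ∑ r ∈ Finset.range (n + 1), n.choose (r + 1) * f (i + (r + 1)) (j + (n - r)) +
        f i (j + (n + 1)) := by
    have h2 : ∑ r ∈ Finset.range (n + 1), n.choose r * f (i + r) (j + 1 + (n - r)) =
        ∑ r ∈ Finset.range (n + 1 + 1), n.choose r * f (i + r) (j + 1 + (n - r)) := by
      rw [Finset.sum_range_succ _ (n + 1), Nat.choose_succ_self, zero_mul, add_zero]
    rw [h2, Finset.sum_range_succ']
    congr 1
    · refine Finset.sum_congr rfl fun r hr => ?_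
      rcases Nat.lt_or_ge r n with h | h
      · have h3 : j + 1 + (n - (r + 1)) = j + (n - r) := by omega
        rw [h3]
      · have h3 : r = n := by
          have := Finset.mem_range.1 hr
          omega
        rw [h3, Nat.choose_succ_self, zero_mul, zero_mul]
    · rw [Nat.choose_zero_right, one_mul, Nat.add_zero, Nat.sub_zero]
      congr 1
      omega
  rw [h1, Finset.sum_range_succ', ← add_assoc, ← Finset.sum_add_distrib]
  congr 1
  · refine Finset.sum_congr rfl fun r _ => ?_
    have h4 : n + 1 - (r + 1) = n - r := by omega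
    have h5 : i + 1 + r = i + (r + 1) := by omega
    rw [h4, h5, Nat.choose_succ_succ]
    ring
  · rw [Nat.choose_zero_right, one_mul, Nat.add_zero, Nat.sub_zero]

section rec

variable [IsAlgClosed k]

theorem mdeg_prod_tensor (A B Q : Type) [CommRing A] [Algebra k A] [Module.Finite k A] [CommRing B]
    [Algebra k B] [Module.Finite k B] [CommRing Q] [Algebra k Q] [Module.Finite k Q] :
    mdeg k ((A × B) ⊗[k] Q) = mdeg k (A ⊗[k] Q) + mdeg k (B ⊗[k] Q) := by
  let e : (A × B) ⊗[k] Q ≃ₐ[k] (A ⊗[k] Q) × (B ⊗[k] Q) :=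
    (Algebra.TensorProduct.comm k (A × B) Q).trans
      ((Algebra.TensorProduct.prodRight k k Q A B).trans
        (AlgEquiv.prodCongr (Algebra.TensorProduct.comm k Q A)
          (Algebra.TensorProduct.comm k Q B)))
  rw [mdeg_congr e, mdeg_prod' k]

/-- the numbers of the recursion -/
noncomputable def gg (k : Type) [Field k] (A B : Type) [CommRing A] [Algebra k A] [CommRing B]
    [Algebra k B] (n i j : ℕ) : ℕ :=
  mdeg k (Pow k (A × B) n ⊗[k] (Pow k A i ⊗[k] Pow k B j))

omit [IsAlgClosed k] in
theorem mdeg_congr' {A B : Type} [CommRing A] [Algebra k A] [CommRing B] [Algebra k B]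
    (h : Nonempty (A ≃ₐ[k] B)) : mdeg k A = mdeg k B := mdeg_congr h.some

theorem mdeg_step (A B P R S : Type) [CommRing A] [Algebra k A] [Module.Finite k A] [CommRing B]
    [Algebra k B] [Module.Finite k B] [CommRing P] [Algebra k P] [Module.Finite k P]
    [CommRing R] [Algebra k R] [Module.Finite k R] [CommRing S] [Algebra k S]
    [Module.Finite k S] : mdeg k ((A × B) ⊗[k] (P ⊗[k] (R ⊗[k] S))) =
      mdeg k (P ⊗[k] ((A ⊗[k] R) ⊗[k] S)) + mdeg k (P ⊗[k] (R ⊗[k] (B ⊗[k] S))) := by
  rw [mdeg_prod_tensor]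
  congr 1
  · exact mdeg_congr ((Algebra.TensorProduct.leftComm k A P (R ⊗[k] S)).trans
      (Algebra.TensorProduct.congr AlgEquiv.refl
        (Algebra.TensorProduct.assoc k k k A R S).symm))
  · exact mdeg_congr ((Algebra.TensorProduct.leftComm k B P (R ⊗[k] S)).trans
      (Algebra.TensorProduct.congr AlgEquiv.refl
        (Algebra.TensorProduct.leftComm k B R S)))

theorem mdeg_step' (A B P R S P' R' S' : Type) [CommRing A] [Algebra k A] [Module.Finite k A]
    [CommRing B] [Algebra k B] [Module.Finite k B] [CommRing P] [Algebra k P] [Module.Finite k P]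
    [CommRing R] [Algebra k R] [Module.Finite k R] [CommRing S] [Algebra k S]
    [Module.Finite k S] [CommRing P'] [Algebra k P'] [CommRing R'] [Algebra k R']
    [CommRing S'] [Algebra k S'] (eP : P' ≃ₐ[k] (A × B) ⊗[k] P) (eR : R' ≃ₐ[k] A ⊗[k] R)
    (eS : S' ≃ₐ[k] B ⊗[k] S) : mdeg k (P' ⊗[k] (R ⊗[k] S)) =
      mdeg k (P ⊗[k] (R' ⊗[k] S)) + mdeg k (P ⊗[k] (R ⊗[k] S')) := by
  have h0 : mdeg k (P' ⊗[k] (R ⊗[k] S)) = mdeg k ((A × B) ⊗[k] (P ⊗[k] (R ⊗[k] S))) :=
    mdeg_congr ((Algebra.TensorProduct.congr eP (AlgEquiv.refl (R := k) (A₁ := R ⊗[k] S))).trans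
      (Algebra.TensorProduct.assoc k k k (A × B) P (R ⊗[k] S)))
  rw [h0, mdeg_step]
  congr 1
  · exact mdeg_congr (Algebra.TensorProduct.congr AlgEquiv.refl
      (Algebra.TensorProduct.congr eR.symm AlgEquiv.refl))
  · exact mdeg_congr (Algebra.TensorProduct.congr AlgEquiv.refl
      (Algebra.TensorProduct.congr AlgEquiv.refl eS.symm))

theorem gg_succ (A B : Type) [CommRing A] [Algebra k A] [Module.Finite k A] [CommRing B]
    [Algebra k B] [Module.Finite k B] (n i j : ℕ) :
    gg k A B (n + 1) i j = gg k A B n (i + 1) j + gg k A B n i (j + 1) :=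
  mdeg_step' A B (Pow k (A × B) n) (Pow k A i) (Pow k B j) (Pow k (A × B) (n + 1))
    (Pow k A (i + 1)) (Pow k B (j + 1)) (powSucc k (A × B) n) (powSucc k A i) (powSucc k B j)

omit [IsAlgClosed k] in
theorem gg_zero (A B : Type) [CommRing A] [Algebra k A] [CommRing B]
    [Algebra k B] (i j : ℕ) : gg k A B 0 i j = mdeg k (Pow k A i ⊗[k] Pow k B j) := by
  let e : Pow k (A × B) 0 ⊗[k] (Pow k A i ⊗[k] Pow k B j) ≃ₐ[k] Pow k A i ⊗[k] Pow k B j :=
    (Algebra.TensorProduct.congr (powZero k (A × B)) AlgEquiv.refl).trans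
      (Algebra.TensorProduct.lid k (Pow k A i ⊗[k] Pow k B j))
  unfold gg
  rw [mdeg_congr e]

theorem gg_eq (A B : Type) [CommRing A] [Algebra k A] [Module.Finite k A] [CommRing B]
    [Algebra k B] [Module.Finite k B] (n : ℕ) : ∀ i j : ℕ, gg k A B n i j =
      ∑ r ∈ Finset.range (n + 1), n.choose r * mdeg k (Pow k A (i + r) ⊗[k] Pow k B (j + (n - r))) := by
  induction n with
  | zero =>
    intro i j
    rw [gg_zero]
    simp
  | succ n ih =>
    intro i j
    rw [gg_succ, ih, ih, choose_sum n i j fun a b => mdeg k (Pow k A a ⊗[k] Pow k B b)]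

end rec

end Pool.Agent.TH671.DU
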