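import Pool.Agent.TH671.DU.Rate

/-!
# Growth rates of disjoint unions, reduction of Q1 to almost reduced schemes
-/

set_option autoImplicit false
set_option linter.unusedSectionVars false

namespace Pool.Agent.TH671.DU

open scoped TensorProduct PowerSeries Topology
open Pool.Agent.H826R3.SM
open Filter

variable {k : Type} [Field k] [IsAlgClosed k]

section

variable (A B : Type) [CommRing A] [Algebra k A] [Module.Finite k A] [Nontrivial A]
  [CommRing B] [Algebra k B] [Module.Finite k B] [Nontrivial B]

theorem one_le_rate : (1 : ℝ) ≤ rate k A := by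
  refine le_trans ?_ (finrank_le_rate A)
  exact_mod_cast (Module.finrank_pos (R := k) (M := A))

theorem growth_of_rate (η : ℝ) (hη : 0 < η) : Growth k A (rate k A + η) := by
  obtain ⟨C, hC, hG⟩ := rate_growth (k := k) A η hη
  refine ⟨C, hC, fun n => ⟨mdeg k (Pow k A n), hG n, ?_⟩⟩
  obtain ⟨D, hD⟩ := exists_fam (k := k) (Pow k A n)
  exact mdeg_spec hD

variable {A B}

theorem rate_le_of_growth {x : ℝ} (hx : 0 < x) (h : Growth k A x) : rate k A ≤ x := by
  obtain ⟨C, hC, hG⟩ := h
  rw [rate_eq]
  refine irate_le_of_growth _ C _ hC hx fun n => ?_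
  obtain ⟨D, hD1, hD2⟩ := hG n
  refine le_trans ?_ hD1
  exact_mod_cast mdeg_le hD2

theorem rate_of_surjective (f : A →ₐ[k] B) (hf : Function.Surjective f) :
    rate k B ≤ rate k A := by
  have h1 := one_le_rate (k := k) A
  refine le_of_forall_pos_le_add fun η hη => ?_
  exact rate_le_of_growth (by linarith) ((growth_of_rate A η hη).of_surjective f hf)

theorem rate_congr (e : A ≃ₐ[k] B) : rate k A = rate k B :=
  le_antisymm (rate_of_surjective e.symm.toAlgHom e.symm.surjective)
    (rate_of_surjective e.toAlgHom e.surjective)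

theorem qOne_congr (e : A ≃ₐ[k] B) : QOne k A ↔ QOne k B := by
  rw [qOne_iff_rate, qOne_iff_rate, rate_congr e, e.toLinearEquiv.finrank_eq]

variable (A B)

theorem rate_prod_le : rate k (A × B) ≤ rate k A + rate k B := by
  have h1 := one_le_rate (k := k) A
  have h2 := one_le_rate (k := k) B
  refine le_of_forall_pos_le_add fun η hη => ?_
  have h3 := (growth_of_rate (k := k) A (η / 2) (by linarith)).prod
    (growth_of_rate (k := k) B (η / 2) (by linarith)) (by linarith)
  refine rate_le_of_growth (by linarith) (h3.mono (by linarith) (by linarith))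

theorem qOne_prod (hA : QOne k A) (hB : QOne k B) : QOne k (A × B) := by
  rw [qOne_iff_rate] at hA hB ⊢
  refine le_antisymm ?_ (finrank_le_rate (A × B))
  refine (rate_prod_le A B).trans ?_
  rw [hA, hB, Module.finrank_prod]
  push_cast
  exact le_rfl

end

theorem qOne_of_local (h : ∀ (A : Type) [CommRing A] [Algebra k A] [Module.Finite k A]
    [IsLocalRing A], QOne k A) (n : ℕ) :
    ∀ (A : Type) [CommRing A] [Algebra k A] [Module.Finite k A] [Nontrivial A],
      Module.finrank k A = n → QOne k A := by
  induction n using Nat.strong_induction_on with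
  | _ n ih =>
    intro A _ _ _ _ hn
    by_cases hloc : IsLocalRing A
    · exact h A
    have hart : IsArtinianRing A := IsArtinianRing.of_finite k A
    obtain ⟨e, he, hu, hu'⟩ := exists_idem hloc
    let f : A →ₐ[k] (A ⧸ Ideal.span {e}) × (A ⧸ Ideal.span {1 - e}) :=
      (Ideal.Quotient.mkₐ k (Ideal.span {e})).prod (Ideal.Quotient.mkₐ k (Ideal.span {1 - e}))
    have hf : Function.Bijective f := crt_bijective e he
    let F := AlgEquiv.ofBijective f hf
    have hnt1 : Nontrivial (A ⧸ Ideal.span {e}) := by
      rw [Ideal.Quotient.nontrivial_iff, Ne, Ideal.span_singleton_eq_top]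
      exact hu
    have hnt2 : Nontrivial (A ⧸ Ideal.span {1 - e}) := by
      rw [Ideal.Quotient.nontrivial_iff, Ne, Ideal.span_singleton_eq_top]
      exact hu'
    have hsum : Module.finrank k A = Module.finrank k (A ⧸ Ideal.span {e}) +
        Module.finrank k (A ⧸ Ideal.span {1 - e}) := by
      rw [F.toLinearEquiv.finrank_eq, Module.finrank_prod]
    have hp1 : 0 < Module.finrank k (A ⧸ Ideal.span {e}) := Module.finrank_pos
    have hp2 : 0 < Module.finrank k (A ⧸ Ideal.span {1 - e}) := Module.finrank_pos
    have g1 := ih _ (by omega) (A ⧸ Ideal.span {e}) rfl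
    have g2 := ih _ (by omega) (A ⧸ Ideal.span {1 - e}) rfl
    exact (qOne_congr F).2 (qOne_prod _ _ g1 g2)

/-- **Q1 for almost reduced schemes.** -/
theorem qOne_almost_reduced (f : ℕ → ℕ) :
    (∀ (A : Type) [CommRing A] [Algebra k A] [Module.Finite k A] [Nontrivial A], QOne k A) ↔
    ∀ (A : Type) [CommRing A] [Algebra k A] [Module.Finite k A] [IsLocalRing A],
      QOne k (A × (Fin (f (Module.finrank k A)) → k)) := by
  constructor
  · intro h A _ _ _ _
    have hnt : Nontrivial (A × (Fin (f (Module.finrank k A)) → k)) := inferInstance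
    exact h _
  · intro h A _ _ _ _
    exact qOne_of_local (fun A _ _ _ _ => (qOne_add_points A _).1 (h A)) _ A rfl

end Pool.Agent.TH671.DU
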