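import Pool.Agent.H826R3.SM.Fam2
import Mathlib.RingTheory.Henselian
import Mathlib.RingTheory.AdicCompletion.AsTensorProduct
import Mathlib.RingTheory.AdicCompletion.Completeness

/-!
# A family containing a disjoint union splits
-/

set_option autoImplicit false

namespace Pool.Agent.TH671.DU

open scoped TensorProduct PowerSeries
open Pool.Agent.H826R3.SM

/-- finite modules over a complete noetherian ring are complete -/
theorem isAdicComplete_of_finite {R : Type} [CommRing R] [IsNoetherianRing R] (I : Ideal R)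
    [IsAdicComplete I R] (M : Type) [AddCommGroup M] [Module R M] [Module.Finite R M] :
    IsAdicComplete I M := by
  rw [← AdicCompletion.of_bijective_iff]
  have h1 := AdicCompletion.ofTensorProduct_bijective_of_finite_of_isNoetherian I M
  have h2 : Function.Bijective (AdicCompletion.of I R) := AdicCompletion.of_bijective I R
  let e : R ≃ₗ[R] AdicCompletion I R := LinearEquiv.ofBijective (AdicCompletion.of I R) h2
  let F : M ≃ₗ[R] (AdicCompletion I R ⊗[R] M) :=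
    (TensorProduct.lid R M).symm.trans (TensorProduct.congr e (LinearEquiv.refl R M))
  have h3 : (AdicCompletion.of I M : M → AdicCompletion I M) =
      AdicCompletion.ofTensorProduct I M ∘ F := by
    funext x
    have h4 : F x = (AdicCompletion.of I R 1) ⊗ₜ[R] x := by
      simp [F, e]
    rw [Function.comp_apply, h4, AdicCompletion.ofTensorProduct_tmul]
    have h5 : AdicCompletion.of I R 1 = 1 := rfl
    rw [h5, one_smul]
  rw [h3]
  exact h1.comp F.bijective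

theorem monic_aux (R : Type) [CommRing R] :
    (Polynomial.X ^ 2 - Polynomial.X : Polynomial R).Monic := by
  nontriviality R
  refine (Polynomial.monic_X_pow 2).sub_of_left ?_
  rw [Polynomial.degree_X_pow, Polynomial.degree_X]
  norm_num

theorem eval_aux {R : Type} [CommRing R] (a : R) :
    (Polynomial.X ^ 2 - Polynomial.X : Polynomial R).derivative.eval a = 2 * a - 1 := by
  rw [Polynomial.derivative_sub, Polynomial.derivative_X, Polynomial.derivative_X_pow]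
  simp

/-- idempotents lift along surjections from a finite `k⟦X⟧`-algebra -/
theorem exists_idem_lift {k : Type} [Field k] {𝒜 : Type} [CommRing 𝒜] [Algebra k⟦X⟧ 𝒜]
    [Module.Finite k⟦X⟧ 𝒜] {A B : Type} [CommRing A] [CommRing B] (π : 𝒜 →+* A × B)
    (hπ : Function.Surjective π) (hX : π (algebraMap k⟦X⟧ 𝒜 PowerSeries.X) = 0) :
    ∃ e : 𝒜, e * e = e ∧ π e = (1, 0) := by
  set J : Ideal k⟦X⟧ := Ideal.span {PowerSeries.X} with hJ
  set I : Ideal 𝒜 := J.map (algebraMap k⟦X⟧ 𝒜) with hI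
  have hcJ : IsAdicComplete J 𝒜 := isAdicComplete_of_finite J 𝒜
  have hcI : IsAdicComplete I 𝒜 := (IsAdicComplete.map_algebraMap_iff J 𝒜).2 hcJ
  have hens : HenselianRing 𝒜 I := inferInstance
  have hIπ : ∀ x ∈ I, π x = 0 := by
    intro x hx
    rw [hI, hJ, Ideal.map_span, Set.image_singleton, Ideal.mem_span_singleton] at hx
    obtain ⟨y, rfl⟩ := hx
    rw [map_mul, hX, zero_mul]
  have hart : IsArtinianRing (𝒜 ⧸ I) := by
    have hmax : J.IsMaximal := by
      rw [hJ, ← PowerSeries.maximalIdeal_eq_span_X]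
      infer_instance
    let _ : Field (k⟦X⟧ ⧸ J) := Ideal.Quotient.field J
    have hfin : Module.Finite (k⟦X⟧ ⧸ J) (𝒜 ⧸ I) :=
      Module.Finite.of_restrictScalars_finite k⟦X⟧ (k⟦X⟧ ⧸ J) (𝒜 ⧸ I)
    exact IsArtinianRing.of_finite (k⟦X⟧ ⧸ J) (𝒜 ⧸ I)
  obtain ⟨b, hb⟩ := hπ (1, 0)
  obtain ⟨n, y, hy⟩ := IsArtinian.exists_pow_succ_smul_dvd (Ideal.Quotient.mk I b) (1 : 𝒜 ⧸ I)
  obtain ⟨y, rfl⟩ := Ideal.Quotient.mk_surjective y
  rw [smul_eq_mul, smul_eq_mul, mul_one] at hy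
  have h1 : b ^ n.succ * y - b ^ n ∈ I := by
    rw [← Ideal.Quotient.eq, map_mul, map_pow, map_pow]
    exact hy
  have h2 : ∀ m : ℕ, b ^ (n + 1) * (b * y) ^ m - b ^ (n + 1) ∈ I := by
    intro m
    induction m with
    | zero => simp
    | succ m ih =>
      have h3 : b ^ (n + 1) * (b * y) ^ (m + 1) - b ^ (n + 1) =
          (b ^ (n + 1) * (b * y) ^ m - b ^ (n + 1)) * (b * y) + (b ^ n.succ * y - b ^ n) * b := by
        rw [Nat.succ_eq_add_one]
        ring
      rw [h3]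
      exact I.add_mem (I.mul_mem_right _ ih) (I.mul_mem_right _ h1)
  set e₀ : 𝒜 := (b * y) ^ (n + 1) with he₀
  have h4 : e₀ * e₀ - e₀ ∈ I := by
    have h5 := h2 (n + 1)
    have h6 : e₀ * e₀ - e₀ = (b ^ (n + 1) * (b * y) ^ (n + 1) - b ^ (n + 1)) * y ^ (n + 1) := by
      rw [he₀]
      ring
    rw [h6]
    exact I.mul_mem_right _ h5
  have h7 : π e₀ = (1, 0) := by
    have h8 := hIπ _ h1
    rw [map_sub, map_mul, map_pow, map_pow, hb] at h8
    have h9 : (π y).1 = 1 := by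
      have := congrArg Prod.fst h8
      simpa [sub_eq_zero] using this
    rw [he₀, map_pow, map_mul, hb]
    ext
    · simp [h9]
    · simp
  obtain ⟨e, he1, he2⟩ := hens.is_henselian (Polynomial.X ^ 2 - Polynomial.X) (monic_aux 𝒜) e₀ (by
      simpa [pow_two] using h4) (by
      have h12 : (Polynomial.X ^ 2 - Polynomial.X : Polynomial 𝒜).derivative.eval e₀ =
          2 * e₀ - 1 := eval_aux e₀
      rw [h12]
      refine IsUnit.of_mul_eq_one (Ideal.Quotient.mk I (2 * e₀ - 1)) ?_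
      rw [← map_mul, ← map_one (Ideal.Quotient.mk I), Ideal.Quotient.eq]
      have h13 : (2 * e₀ - 1) * (2 * e₀ - 1) - 1 = (e₀ * e₀ - e₀) * 4 := by ring
      rw [h13]
      exact I.mul_mem_right _ h4)
  refine ⟨e, ?_, ?_⟩
  · have h10 : e ^ 2 - e = 0 := by simpa [Polynomial.IsRoot] using he1
    rw [← pow_two]
    exact sub_eq_zero.1 h10
  · have h11 := hIπ _ he2
    rw [map_sub, sub_eq_zero] at h11
    rw [h11, h7]

theorem isReduced_fst {R S : Type} [CommRing R] [CommRing S] (h : IsReduced (R × S)) :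
    IsReduced R := by
  refine ⟨fun x hx => ?_⟩
  obtain ⟨n, hn⟩ := hx
  have h1 : IsNilpotent ((x, 0) : R × S) := ⟨n + 1, by
    rw [Prod.pow_mk, pow_succ, hn, zero_mul, zero_pow (Nat.succ_ne_zero n)]
    rfl⟩
  exact congrArg Prod.fst h1.eq_zero

theorem isReduced_snd {R S : Type} [CommRing R] [CommRing S] (h : IsReduced (R × S)) :
    IsReduced S := by
  refine ⟨fun x hx => ?_⟩
  obtain ⟨n, hn⟩ := hx
  have h1 : IsNilpotent ((0, x) : R × S) := ⟨n + 1, by
    rw [Prod.pow_mk, pow_succ, pow_succ, hn, zero_mul, mul_zero]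
    rfl⟩
  exact congrArg Prod.snd h1.eq_zero

section factor

variable {k : Type} [Field k] {𝒜 S₁ S₂ : Type} [CommRing 𝒜] [Algebra k⟦X⟧ 𝒜] [CommRing S₁]
  [Algebra k⟦X⟧ S₁] [CommRing S₂] [Algebra k⟦X⟧ S₂]

/-- the factors of a family -/
theorem factor_data (F : 𝒜 ≃ₐ[k⟦X⟧] S₁ × S₂) (hfin : Module.Finite k⟦X⟧ 𝒜)
    (hfree : Module.Free k⟦X⟧ 𝒜) (hred : IsReduced (LL k ⊗[k⟦X⟧] 𝒜)) :
    Module.Finite k⟦X⟧ S₁ ∧ Module.Finite k⟦X⟧ S₂ ∧ Module.Free k⟦X⟧ S₁ ∧ Module.Free k⟦X⟧ S₂ ∧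
      IsReduced (LL k ⊗[k⟦X⟧] S₁) ∧ IsReduced (LL k ⊗[k⟦X⟧] S₂) ∧
      Module.finrank k⟦X⟧ 𝒜 = Module.finrank k⟦X⟧ S₁ + Module.finrank k⟦X⟧ S₂ := by
  have hPQ : Module.Finite k⟦X⟧ (S₁ × S₂) := Module.Finite.equiv F.toLinearEquiv
  have hPQ' : Module.Free k⟦X⟧ (S₁ × S₂) := Module.Free.of_equiv F.toLinearEquiv
  have hP : Module.Finite k⟦X⟧ S₁ := Module.Finite.of_surjective (LinearMap.fst k⟦X⟧ S₁ S₂)
    Prod.fst_surjective
  have hQ : Module.Finite k⟦X⟧ S₂ := Module.Finite.of_surjective (LinearMap.snd k⟦X⟧ S₁ S₂)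
    Prod.snd_surjective
  have hPp : Module.Projective k⟦X⟧ S₁ := Module.Projective.of_split
    (LinearMap.inl k⟦X⟧ S₁ S₂) (LinearMap.fst k⟦X⟧ S₁ S₂) (by ext; rfl)
  have hQp : Module.Projective k⟦X⟧ S₂ := Module.Projective.of_split
    (LinearMap.inr k⟦X⟧ S₁ S₂) (LinearMap.snd k⟦X⟧ S₁ S₂) (by ext; rfl)
  have hPf : Module.Free k⟦X⟧ S₁ := Module.free_of_flat_of_isLocalRing
  have hQf : Module.Free k⟦X⟧ S₂ := Module.free_of_flat_of_isLocalRing
  have hr : IsReduced (LL k ⊗[k⟦X⟧] (S₁ × S₂)) := by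
    let E : (LL k ⊗[k⟦X⟧] (S₁ × S₂)) ≃ₐ[LL k] (LL k ⊗[k⟦X⟧] 𝒜) :=
      Algebra.TensorProduct.congr AlgEquiv.refl F.symm
    exact isReduced_of_injective E E.injective
  have hr' : IsReduced ((LL k ⊗[k⟦X⟧] S₁) × (LL k ⊗[k⟦X⟧] S₂)) := by
    let e := Algebra.TensorProduct.prodRight k⟦X⟧ (LL k) (LL k) S₁ S₂
    exact isReduced_of_injective e.symm e.symm.injective
  refine ⟨hP, hQ, hPf, hQf, isReduced_fst hr', isReduced_snd hr', ?_⟩
  rw [F.toLinearEquiv.finrank_eq, Module.finrank_prod]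

theorem crt_bij (R : Type) [CommRing R] {Y : Type} [CommRing Y] [Algebra R Y] (e : Y)
    (he : e * e = e) : Function.Bijective
    ((Ideal.Quotient.mkₐ R (Ideal.span {e})).prod (Ideal.Quotient.mkₐ R (Ideal.span {1 - e}))) := by
  constructor
  · rw [injective_iff_map_eq_zero]
    intro y hy
    have hy1 : y ∈ Ideal.span {e} := Ideal.Quotient.eq_zero_iff_mem.mp (congrArg Prod.fst hy)
    have hy2 : y ∈ Ideal.span {1 - e} :=
      Ideal.Quotient.eq_zero_iff_mem.mp (congrArg Prod.snd hy)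
    rw [Ideal.mem_span_singleton] at hy1 hy2
    obtain ⟨a, ha⟩ := hy1
    obtain ⟨b, hb⟩ := hy2
    have h3 : e * y = y := by rw [ha, ← mul_assoc, he]
    have h4 : e * y = 0 := by
      rw [hb, ← mul_assoc, mul_sub, mul_one, he, sub_self, zero_mul]
    rw [← h3, h4]
  · rintro ⟨a, b⟩
    obtain ⟨a, rfl⟩ := Ideal.Quotient.mk_surjective a
    obtain ⟨b, rfl⟩ := Ideal.Quotient.mk_surjective b
    refine ⟨(1 - e) * a + e * b, ?_⟩
    have h3 : (Ideal.Quotient.mk (Ideal.span {e})) ((1 - e) * a + e * b) =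
        Ideal.Quotient.mk (Ideal.span {e}) a := by
      rw [Ideal.Quotient.eq, Ideal.mem_span_singleton]
      exact ⟨b - a, by ring⟩
    have h4 : (Ideal.Quotient.mk (Ideal.span {1 - e})) ((1 - e) * a + e * b) =
        Ideal.Quotient.mk (Ideal.span {1 - e}) b := by
      rw [Ideal.Quotient.eq, Ideal.mem_span_singleton]
      exact ⟨a - b, by ring⟩
    exact Prod.ext h3 h4

end factor

/-- **Splitting.** A family which contains a disjoint union is the disjoint union of families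
which contain the parts. -/
theorem fam_split {k : Type} [Field k] {A B : Type} [CommRing A] [Algebra k A] [CommRing B]
    [Algebra k B] {D : ℕ} (h : Fam k (A × B) D) :
    ∃ D₁ D₂, D₁ + D₂ ≤ D ∧ Fam k A D₁ ∧ Fam k B D₂ := by
  obtain ⟨𝒜, c1, c2, hfin, hfree, hred, hD, π, hπ, hπC⟩ := h
  have hX : π (algebraMap k⟦X⟧ 𝒜 PowerSeries.X) = 0 := by
    rw [hπC, PowerSeries.constantCoeff_X, map_zero]
  obtain ⟨e, he, hπe⟩ := exists_idem_lift π hπ hX
  let F : 𝒜 ≃ₐ[k⟦X⟧] (𝒜 ⧸ Ideal.span {e}) × (𝒜 ⧸ Ideal.span {1 - e}) :=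
    AlgEquiv.ofBijective _ (crt_bij k⟦X⟧ e he)
  obtain ⟨h1, h2, h3, h4, h5, h6, h7⟩ := factor_data F hfin hfree hred
  refine ⟨Module.finrank k⟦X⟧ (𝒜 ⧸ Ideal.span {1 - e}), Module.finrank k⟦X⟧ (𝒜 ⧸ Ideal.span {e}),
    by omega, ?_, ?_⟩
  · have hk : ∀ x ∈ Ideal.span {1 - e}, ((RingHom.fst A B).comp π) x = 0 := by
      intro x hx
      obtain ⟨y, rfl⟩ := Ideal.mem_span_singleton.1 hx
      change (π ((1 - e) * y)).1 = 0
      rw [map_mul, map_sub, map_one, hπe]
      simp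
    refine ⟨_, _, _, h2, h4, h6, le_rfl, Ideal.Quotient.lift _ ((RingHom.fst A B).comp π) hk,
      ?_, fun c => ?_⟩
    · intro a
      obtain ⟨x, hx⟩ := hπ (a, 0)
      refine ⟨Ideal.Quotient.mk _ x, ?_⟩
      rw [Ideal.Quotient.lift_mk]
      change (π x).1 = a
      rw [hx]
    · change (π (algebraMap k⟦X⟧ 𝒜 c)).1 = _
      rw [hπC]
      rfl
  · have hk : ∀ x ∈ Ideal.span {e}, ((RingHom.snd A B).comp π) x = 0 := by
      intro x hx
      obtain ⟨y, rfl⟩ := Ideal.mem_span_singleton.1 hx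
      change (π (e * y)).2 = 0
      rw [map_mul, hπe]
      simp
    refine ⟨_, _, _, h1, h3, h5, le_rfl, Ideal.Quotient.lift _ ((RingHom.snd A B).comp π) hk,
      ?_, fun c => ?_⟩
    · intro b
      obtain ⟨x, hx⟩ := hπ (0, b)
      refine ⟨Ideal.Quotient.mk _ x, ?_⟩
      rw [Ideal.Quotient.lift_mk]
      change (π x).2 = b
      rw [hx]
    · change (π (algebraMap k⟦X⟧ 𝒜 c)).2 = _
      rw [hπC]
      rfl

end Pool.Agent.TH671.DU
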